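import Mathlib

/-!
# The kernels `P n` of the harmonic extension on an infinite transitive graph
-/

namespace Q47HL

set_option linter.unusedSectionVars false

open Finset

section Basic

variable {V : Type*} [DecidableEq V] (G : SimpleGraph V) [G.LocallyFinite]

/-- The adjacency operator on finitely supported functions. -/
noncomputable def adjL : Module.End ℤ (V →₀ ℤ) :=
  Finsupp.linearCombination ℤ (fun v => ∑ w ∈ G.neighborFinset v, Finsupp.single w (1 : ℤ))

theorem adjL_single (v : V) (a : ℤ) : adjL G (Finsupp.single v a) =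
    a • ∑ w ∈ G.neighborFinset v, Finsupp.single w (1 : ℤ) := by
  simp [adjL]

theorem adjL_apply (f : V →₀ ℤ) (w : V) : adjL G f w = ∑ u ∈ G.neighborFinset w, f u := by
  induction f using Finsupp.induction_linear with
  | zero => simp
  | add f g hf hg => simp [hf, hg, Finset.sum_add_distrib]
  | single v a =>
    rw [adjL_single, Finsupp.smul_apply, Finsupp.finsetSum_apply]
    have hiff : (w ∈ G.neighborFinset v) ↔ (v ∈ G.neighborFinset w) := by
      rw [SimpleGraph.mem_neighborFinset, SimpleGraph.mem_neighborFinset, G.adj_comm]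
    simp only [Finsupp.single_apply, Finset.sum_ite_eq', Finset.sum_ite_eq]
    by_cases h : w ∈ G.neighborFinset v
    · rw [if_pos h, if_pos (hiff.mp h)]; simp
    · rw [if_neg h, if_neg (fun h' => h (hiff.mpr h'))]; simp

variable (d : ℕ)

/-- `T = d + 2 - A`. -/
noncomputable def TL : Module.End ℤ (V →₀ ℤ) := ((d : ℤ) + 2) • 1 - adjL G

/-- `S = d - A`. -/
noncomputable def SL : Module.End ℤ (V →₀ ℤ) := (d : ℤ) • 1 - adjL G

theorem TL_eq : TL G d = SL G d + 2 • 1 := by
  unfold TL SL
  rw [add_smul]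
  simp only [nsmul_eq_mul, Nat.cast_ofNat, zsmul_eq_mul, mul_one, Int.cast_natCast]
  have : ((2 : ℤ) : Module.End ℤ (V →₀ ℤ)) = 2 := by norm_num
  rw [this]
  abel

theorem TL_apply (f : V →₀ ℤ) (w : V) :
    TL G d f w = ((d : ℤ) + 2) * f w - ∑ u ∈ G.neighborFinset w, f u := by
  simp [TL, adjL_apply]
  ring

/-- The kernels. -/
noncomputable def P : ℕ → Module.End ℤ (V →₀ ℤ)
  | 0 => 0
  | 1 => 1
  | n + 2 => TL G d * P (n + 1) - P n

theorem P_zero : P G d 0 = 0 := rfl

theorem P_one : P G d 1 = 1 := rfl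

theorem P_succ (n : ℕ) : P G d (n + 2) = TL G d * P G d (n + 1) - P G d n := rfl

/-- The kernels for integral indices. -/
noncomputable def PZ (n : ℤ) : Module.End ℤ (V →₀ ℤ) := n.sign • P G d n.natAbs

theorem PZ_nat (n : ℕ) : PZ G d n = P G d n := by
  unfold PZ
  rcases Nat.eq_zero_or_pos n with rfl | h
  · simp [P_zero]
  · rw [Int.sign_eq_one_of_pos (by exact_mod_cast h)]
    simp

theorem PZ_neg (n : ℤ) : PZ G d (-n) = - PZ G d n := by
  unfold PZ
  rw [Int.sign_neg, Int.natAbs_neg, neg_smul]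

theorem PZ_rec (n : ℤ) : PZ G d (n + 1) = TL G d * PZ G d n - PZ G d (n - 1) := by
  have hpos : ∀ k : ℕ, PZ G d ((k : ℤ) + 1 + 1) = TL G d * PZ G d ((k : ℤ) + 1) - PZ G d k := by
    intro k
    have h1 : ((k : ℤ) + 1 + 1) = ((k + 2 : ℕ) : ℤ) := by push_cast; ring
    have h2 : ((k : ℤ) + 1) = ((k + 1 : ℕ) : ℤ) := by push_cast; ring
    rw [h1, h2, PZ_nat, PZ_nat, PZ_nat, P_succ]
  rcases lt_trichotomy n 0 with h | h | h
  · obtain ⟨k, hk⟩ : ∃ k : ℕ, n = -((k : ℤ) + 1) := ⟨(-n - 1).toNat, by omega⟩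
    subst hk
    have e1 : -((k : ℤ) + 1) + 1 = -(k : ℤ) := by ring
    have e2 : -((k : ℤ) + 1) - 1 = -((k : ℤ) + 1 + 1) := by ring
    rw [e1, e2, PZ_neg, PZ_neg, PZ_neg, hpos k]
    rw [mul_neg]
    abel
  · subst h
    have e1 : (0 : ℤ) + 1 = ((1 : ℕ) : ℤ) := by norm_num
    have e2 : (0 : ℤ) - 1 = -((1 : ℕ) : ℤ) := by norm_num
    have e3 : (0 : ℤ) = ((0 : ℕ) : ℤ) := by norm_num
    rw [e1, e2, PZ_neg, PZ_nat, e3, PZ_nat, P_zero, mul_zero, P_one]
    abel
  · obtain ⟨k, hk⟩ : ∃ k : ℕ, n = (k : ℤ) + 1 := ⟨(n - 1).toNat, by omega⟩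
    subst hk
    rw [hpos k]
    congr 2
    ring

theorem P_comm (n : ℕ) : P G d n * TL G d = TL G d * P G d n := by
  induction n using Nat.twoStepInduction with
  | zero => simp [P_zero]
  | one => simp [P_one]
  | more n h1 h2 =>
    rw [P_succ, sub_mul, mul_assoc, h2, h1, mul_sub]

theorem PZ_comm (n : ℤ) : PZ G d n * TL G d = TL G d * PZ G d n := by
  unfold PZ
  rw [smul_mul_assoc, P_comm, mul_smul_comm]

/-- The bilinear form `∑ g u * h u`. -/
noncomputable def B : (V →₀ ℤ) →ₗ[ℤ] (V →₀ ℤ) →ₗ[ℤ] ℤ :=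
  Finsupp.linearCombination ℤ (fun v => (Finsupp.lapply v : (V →₀ ℤ) →ₗ[ℤ] ℤ))

theorem B_single (v : V) (a : ℤ) (h : V →₀ ℤ) : B (Finsupp.single v a) h = a * h v := by
  simp [B]

theorem B_sum (g h : V →₀ ℤ) : B g h = ∑ u ∈ g.support, g u * h u := by
  simp [B, Finsupp.linearCombination_apply, Finsupp.sum]

theorem B_sum' (g h : V →₀ ℤ) (K : Finset V) (hK : g.support ⊆ K) :
    B g h = ∑ u ∈ K, g u * h u := by
  rw [B_sum]
  apply Finset.sum_subset hK
  intro u _ hu
  rw [Finsupp.notMem_support_iff.mp hu, zero_mul]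

theorem B_comm (g h : V →₀ ℤ) : B g h = B h g := by
  rw [B_sum' g h (g.support ∪ h.support) Finset.subset_union_left,
    B_sum' h g (g.support ∪ h.support) Finset.subset_union_right]
  exact Finset.sum_congr rfl (fun u _ => mul_comm _ _)

theorem B_single_right (v : V) (g : V →₀ ℤ) : B g (Finsupp.single v 1) = g v := by
  rw [B_comm, B_single, one_mul]

theorem adjL_adj (g h : V →₀ ℤ) : B (adjL G g) h = B g (adjL G h) := by
  induction g using Finsupp.induction_linear with
  | zero => simp
  | add f g hf hg => simp [hf, hg]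
  | single v a =>
    rw [adjL_single, B_single, adjL_apply, map_smul, LinearMap.smul_apply, map_sum,
      LinearMap.sum_apply, smul_eq_mul]
    congr 1
    exact Finset.sum_congr rfl (fun u _ => by rw [B_single, one_mul])

theorem TL_adj (g h : V →₀ ℤ) : B (TL G d g) h = B g (TL G d h) := by
  simp [TL, adjL_adj]

theorem SL_adj (g h : V →₀ ℤ) : B (SL G d g) h = B g (SL G d h) := by
  simp [SL, adjL_adj]

theorem P_adj (n : ℕ) : ∀ g h : V →₀ ℤ, B (P G d n g) h = B g (P G d n h) := by
  induction n using Nat.twoStepInduction with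
  | zero => intro g h; simp [P_zero]
  | one => intro g h; simp [P_one]
  | more n h1 h2 =>
    intro g h
    rw [P_succ, LinearMap.sub_apply, Module.End.mul_apply, map_sub, LinearMap.sub_apply, TL_adj,
      h2, h1, LinearMap.sub_apply, Module.End.mul_apply, map_sub, ← Module.End.mul_apply, P_comm,
      Module.End.mul_apply]

theorem P_symm (n : ℕ) (v w : V) : P G d n (Finsupp.single v 1) w = P G d n (Finsupp.single w 1) v := by
  have := P_adj G d n (Finsupp.single v 1) (Finsupp.single w 1)
  rw [B_single_right, B_single, one_mul] at this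
  exact this

/-- The shift identity. -/
theorem P_diff (n : ℕ) : P G d (n + 2) - P G d (n + 1) =
    SL G d * P G d (n + 1) + (P G d (n + 1) - P G d n) := by
  rw [P_succ, TL_eq, add_mul]
  simp only [nsmul_eq_mul, Nat.cast_ofNat, mul_one]
  rw [two_mul]
  abel

/-- Nonnegative combinations of powers of `S`. -/
noncomputable def Pos : AddSubmonoid (Module.End ℤ (V →₀ ℤ)) :=
  AddSubmonoid.closure (Set.range (fun k : ℕ => SL G d ^ k))

theorem pow_mem_Pos (k : ℕ) : SL G d ^ k ∈ Pos G d :=
  AddSubmonoid.subset_closure ⟨k, rfl⟩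

theorem one_mem_Pos : (1 : Module.End ℤ (V →₀ ℤ)) ∈ Pos G d := by
  simpa using pow_mem_Pos G d 0

theorem SL_mul_mem {X : Module.End ℤ (V →₀ ℤ)} (h : X ∈ Pos G d) : SL G d * X ∈ Pos G d := by
  induction h using AddSubmonoid.closure_induction with
  | mem x hx =>
    obtain ⟨k, rfl⟩ := hx
    simp only
    rw [← pow_succ']
    exact pow_mem_Pos G d (k + 1)
  | zero => rw [mul_zero]; exact zero_mem _
  | add x y _ _ hx hy => rw [mul_add]; exact add_mem hx hy

theorem P_form (n : ℕ) : ∃ Y ∈ Pos G d, ∃ Y' ∈ Pos G d, P G d (n + 1) = 1 + Y ∧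
    P G d (n + 1) - P G d n = 1 + Y' := by
  induction n with
  | zero => exact ⟨0, zero_mem _, 0, zero_mem _, by simp [P_one], by simp [P_one, P_zero]⟩
  | succ n ih =>
    obtain ⟨Y, hY, Y', hY', h1, h2⟩ := ih
    have e : P G d (n + 2) - P G d (n + 1) = 1 + (SL G d + SL G d * Y + Y') := by
      rw [P_diff, h2, h1, mul_add, mul_one]
      abel
    have hS : SL G d ∈ Pos G d := by simpa using pow_mem_Pos G d 1
    have hm : SL G d + SL G d * Y + Y' ∈ Pos G d :=
      add_mem (add_mem hS (SL_mul_mem G d hY)) hY'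
    refine ⟨Y + (1 + (SL G d + SL G d * Y + Y')), add_mem hY (add_mem (one_mem_Pos G d) hm), _, hm,
      ?_, e⟩
    have : P G d (n + 1 + 1) = P G d (n + 1) + (P G d (n + 2) - P G d (n + 1)) := by abel
    rw [this, e, h1]
    abel

end Basic

/-! ## Positivity -/

section Positivity

variable {V : Type*} [DecidableEq V] (G : SimpleGraph V) [G.LocallyFinite] (d : ℕ)

open Classical in
/-- The quadratic form of the adjacency matrix of a finite set is smaller than `d`. -/
theorem quad_lt [Infinite V] (hconn : G.Connected) (hdeg : ∀ v, G.degree v = d) (K : Finset V)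
    (h : V → ℝ) (hne : ∃ u ∈ K, h u ≠ 0) :
    ∑ u ∈ K, ∑ w ∈ K, (if G.Adj u w then h u * h w else 0) < d * ∑ u ∈ K, h u ^ 2 := by
  by_contra hcon
  push Not at hcon
  let N : V → ℝ := fun u => ∑ w ∈ K, (if G.Adj u w then (1 : ℝ) else 0)
  have hN : ∀ u, N u = ((K.filter (fun w => G.Adj u w)).card : ℝ) := by
    intro u
    simp only [N]
    rw [Finset.sum_ite, Finset.sum_const_zero, add_zero, Finset.sum_const, nsmul_eq_mul, mul_one]
  have hsub : ∀ u, K.filter (fun w => G.Adj u w) ⊆ G.neighborFinset u := by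
    intro u w hw
    rw [Finset.mem_filter] at hw
    rw [SimpleGraph.mem_neighborFinset]
    exact hw.2
  have hNle : ∀ u, N u ≤ d := by
    intro u
    rw [hN]
    have := Finset.card_le_card (hsub u)
    rw [SimpleGraph.card_neighborFinset_eq_degree, hdeg u] at this
    exact_mod_cast this
  have e1 : ∑ u ∈ K, ∑ w ∈ K, (if G.Adj u w then h u ^ 2 else 0) = ∑ u ∈ K, N u * h u ^ 2 := by
    apply Finset.sum_congr rfl
    intro u _
    simp only [N]
    rw [Finset.sum_mul]
    apply Finset.sum_congr rfl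
    intro w _
    split_ifs <;> simp
  have e2 : ∑ u ∈ K, ∑ w ∈ K, (if G.Adj u w then h w ^ 2 else 0) = ∑ u ∈ K, N u * h u ^ 2 := by
    rw [Finset.sum_comm, ← e1]
    apply Finset.sum_congr rfl
    intro u _
    apply Finset.sum_congr rfl
    intro w _
    simp only [G.adj_comm w u]
  have e3 : ∑ u ∈ K, ∑ w ∈ K, (if G.Adj u w then (h u - h w) ^ 2 else 0) =
      2 * ∑ u ∈ K, N u * h u ^ 2 -
        2 * ∑ u ∈ K, ∑ w ∈ K, (if G.Adj u w then h u * h w else 0) := by
    have : ∀ u w, (if G.Adj u w then (h u - h w) ^ 2 else 0) =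
        (if G.Adj u w then h u ^ 2 else 0) + (if G.Adj u w then h w ^ 2 else 0) -
          2 * (if G.Adj u w then h u * h w else 0) := by
      intro u w
      split_ifs
      · ring
      · ring
    simp only [this, Finset.sum_sub_distrib, Finset.sum_add_distrib, e1, e2, ← Finset.mul_sum]
    ring
  have e4 : ∑ u ∈ K, ((d : ℝ) - N u) * h u ^ 2 = d * ∑ u ∈ K, h u ^ 2 - ∑ u ∈ K, N u * h u ^ 2 := by
    rw [Finset.mul_sum, ← Finset.sum_sub_distrib]
    apply Finset.sum_congr rfl
    intro u _
    ring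
  have p1 : 0 ≤ ∑ u ∈ K, ∑ w ∈ K, (if G.Adj u w then (h u - h w) ^ 2 else 0) := by
    apply Finset.sum_nonneg; intro u _
    apply Finset.sum_nonneg; intro w _
    split_ifs <;> positivity
  have p2 : 0 ≤ ∑ u ∈ K, ((d : ℝ) - N u) * h u ^ 2 := by
    apply Finset.sum_nonneg; intro u _
    exact mul_nonneg (by linarith [hNle u]) (sq_nonneg _)
  have z1 : ∑ u ∈ K, ∑ w ∈ K, (if G.Adj u w then (h u - h w) ^ 2 else 0) = 0 := by linarith
  have z2 : ∑ u ∈ K, ((d : ℝ) - N u) * h u ^ 2 = 0 := by linarith
  rw [Finset.sum_eq_zero_iff_of_nonneg (by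
    intro u _; apply Finset.sum_nonneg; intro w _; split_ifs <;> positivity)] at z1
  rw [Finset.sum_eq_zero_iff_of_nonneg (by
    intro u _; exact mul_nonneg (by linarith [hNle u]) (sq_nonneg _))] at z2
  -- the nonzero set is closed under adjacency
  have hclosed : ∀ u w, (u ∈ K ∧ h u ≠ 0) → G.Adj u w → (w ∈ K ∧ h w ≠ 0) := by
    rintro u w ⟨hu, hu0⟩ huw
    have hd : (d : ℝ) = N u := by
      have := z2 u hu
      rcases mul_eq_zero.mp this with h' | h'
      · linarith
      · exact absurd (pow_eq_zero_iff (two_ne_zero) |>.mp h') hu0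
    have hw : w ∈ K := by
      have heq : K.filter (fun w => G.Adj u w) = G.neighborFinset u := by
        apply Finset.eq_of_subset_of_card_le (hsub u)
        rw [SimpleGraph.card_neighborFinset_eq_degree, hdeg u]
        rw [hN] at hd
        have : (d : ℝ) = ((K.filter (fun w => G.Adj u w)).card : ℝ) := hd
        exact_mod_cast this.le
      have : w ∈ G.neighborFinset u := by rw [SimpleGraph.mem_neighborFinset]; exact huw
      rw [← heq, Finset.mem_filter] at this
      exact this.1
    refine ⟨hw, ?_⟩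
    have h3 := z1 u hu
    rw [Finset.sum_eq_zero_iff_of_nonneg (by intro w _; split_ifs <;> positivity)] at h3
    have h4 := h3 w hw
    rw [if_pos huw] at h4
    have h5 : h u - h w = 0 := pow_eq_zero_iff (two_ne_zero) |>.mp h4
    rw [← sub_eq_zero.mp h5]
    exact hu0
  obtain ⟨u0, hu0, hne0⟩ := hne
  have hall : ∀ w, w ∈ K ∧ h w ≠ 0 := by
    intro w
    obtain ⟨p⟩ := hconn.preconnected u0 w
    induction p with
    | nil => exact ⟨hu0, hne0⟩
    | @cons a b c hab p ih =>
      obtain ⟨hb1, hb2⟩ := hclosed a b ⟨hu0, hne0⟩ hab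
      exact ih hb1 hb2
  exact Set.infinite_univ (α := V) ((K.finite_toSet).subset (fun w _ => (hall w).1))

theorem SL_nonneg [Infinite V] (hconn : G.Connected) (hdeg : ∀ v, G.degree v = d)
    (g : V →₀ ℤ) : 0 ≤ B (SL G d g) g := by
  classical
  by_cases hg : g = 0
  · simp [hg]
  have h1 : B (SL G d g) g = d * B g g - B g (adjL G g) := by
    simp [SL, adjL_adj]
  have h2 : (∑ u ∈ g.support, ∑ w ∈ g.support, (if G.Adj u w then (g u : ℝ) * (g w : ℝ) else 0)) =
      ((B g (adjL G g) : ℤ) : ℝ) := by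
    rw [B_sum]
    push_cast
    apply Finset.sum_congr rfl
    intro u _
    rw [adjL_apply]
    push_cast
    rw [Finset.mul_sum]
    rw [← Finset.sum_filter]
    apply Finset.sum_subset_zero_on_sdiff
    · intro w hw
      rw [Finset.mem_filter] at hw
      rw [SimpleGraph.mem_neighborFinset]
      exact hw.2
    · intro w hw
      rw [Finset.mem_sdiff, Finset.mem_filter, SimpleGraph.mem_neighborFinset] at hw
      have : w ∉ g.support := fun h => hw.2 ⟨h, hw.1⟩
      rw [Finsupp.notMem_support_iff.mp this]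
      simp
    · intro w _; rfl
  have h3 : (∑ u ∈ g.support, (g u : ℝ) ^ 2) = ((B g g : ℤ) : ℝ) := by
    rw [B_sum]
    push_cast
    apply Finset.sum_congr rfl
    intro u _
    ring
  have hne : ∃ u ∈ g.support, (g u : ℝ) ≠ 0 := by
    obtain ⟨u, hu⟩ := Finsupp.support_nonempty_iff.mpr hg
    exact ⟨u, hu, by exact_mod_cast Finsupp.mem_support_iff.mp hu⟩
  have h4 := quad_lt G d hconn hdeg g.support (fun u => (g u : ℝ)) hne
  rw [h2, h3] at h4
  rw [h1]
  have h5 : B g (adjL G g) < d * B g g := by exact_mod_cast h4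
  omega

theorem Pos_nonneg [Infinite V] (hconn : G.Connected) (hdeg : ∀ v, G.degree v = d)
    {X : Module.End ℤ (V →₀ ℤ)} (hX : X ∈ Pos G d) (g : V →₀ ℤ) : 0 ≤ B (X g) g := by
  have hself : ∀ k : ℕ, ∀ g h : V →₀ ℤ, B ((SL G d ^ k) g) h = B g ((SL G d ^ k) h) := by
    intro k
    induction k with
    | zero => intro g h; simp
    | succ k ih =>
      intro g h
      rw [pow_succ, Module.End.mul_apply, ih, SL_adj, ← Module.End.mul_apply, ← pow_succ',
        ← pow_succ]
  have hBB : ∀ g : V →₀ ℤ, 0 ≤ B g g := by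
    intro g
    rw [B_sum]
    exact Finset.sum_nonneg (fun u _ => mul_self_nonneg _)
  induction hX using AddSubmonoid.closure_induction with
  | mem x hx =>
    obtain ⟨k, rfl⟩ := hx
    simp only
    rcases Nat.even_or_odd' k with ⟨j, rfl | rfl⟩
    · rw [two_mul, pow_add, Module.End.mul_apply, hself]
      exact hBB _
    · rw [pow_succ', two_mul, pow_add, ← mul_assoc, Module.End.mul_apply, ← pow_succ', pow_succ,
        Module.End.mul_apply, hself]
      exact SL_nonneg G d hconn hdeg _
  | zero => simp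
  | add x y _ _ hx hy =>
    rw [LinearMap.add_apply, map_add, LinearMap.add_apply]
    exact add_nonneg hx hy

theorem BB_pos {g : V →₀ ℤ} (hg : g ≠ 0) : 0 < B g g := by
  rw [B_sum]
  apply Finset.sum_pos
  · intro u hu
    exact mul_self_pos.mpr (Finsupp.mem_support_iff.mp hu)
  · exact Finsupp.support_nonempty_iff.mpr hg

theorem P_pos [Infinite V] (hconn : G.Connected) (hdeg : ∀ v, G.degree v = d) (n : ℕ)
    (hn : 1 ≤ n) {g : V →₀ ℤ} (hg : g ≠ 0) : 0 < B (P G d n g) g := by
  obtain ⟨m, rfl⟩ : ∃ m, n = m + 1 := ⟨n - 1, by omega⟩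
  obtain ⟨Y, hY, _, _, h1, _⟩ := P_form G d m
  rw [h1, LinearMap.add_apply, map_add, LinearMap.add_apply, Module.End.one_apply]
  have := Pos_nonneg G d hconn hdeg hY g
  have := BB_pos hg
  omega

theorem P_diff_pos [Infinite V] (hconn : G.Connected) (hdeg : ∀ v, G.degree v = d) (n : ℕ)
    {g : V →₀ ℤ} (hg : g ≠ 0) : B (P G d n g) g < B (P G d (n + 1) g) g := by
  obtain ⟨_, _, Y', hY', _, h2⟩ := P_form G d n
  have h3 : B ((P G d (n + 1) - P G d n) g) g = B g g + B (Y' g) g := by
    rw [h2, LinearMap.add_apply, map_add, LinearMap.add_apply, Module.End.one_apply]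
  rw [LinearMap.sub_apply, map_sub, LinearMap.sub_apply] at h3
  have := Pos_nonneg G d hconn hdeg hY' g
  have := BB_pos hg
  omega

/-- The unit vectors. -/
noncomputable abbrev e (v : V) : V →₀ ℤ := Finsupp.single v 1

theorem diag_lt [Infinite V] (hconn : G.Connected) (hdeg : ∀ v, G.degree v = d) (v : V) {m n : ℕ}
    (hmn : m < n) : P G d m (e v) v < P G d n (e v) v := by
  have hstep : ∀ k, P G d k (e v) v < P G d (k + 1) (e v) v := by
    intro k
    have := P_diff_pos G d hconn hdeg k (g := e v) (by simp [e])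
    rwa [B_single_right, B_single_right] at this
  exact strictMono_nat_of_lt_succ hstep hmn

theorem diag_nonneg [Infinite V] (hconn : G.Connected) (hdeg : ∀ v, G.degree v = d) (v : V)
    (n : ℕ) : 0 ≤ P G d n (e v) v := by
  rcases Nat.eq_zero_or_pos n with rfl | h
  · simp [P_zero]
  · have := diag_lt G d hconn hdeg v h
    simp only [P_zero, LinearMap.zero_apply, Finsupp.coe_zero, Pi.zero_apply] at this
    exact this.le

/-- Off-diagonal entries are smaller than diagonal ones. -/
theorem off_lt [Infinite V] (hconn : G.Connected) (hdeg : ∀ v, G.degree v = d)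
    (hdiag : ∀ n v w, P G d n (e v) v = P G d n (e w) w) {v w : V} (hvw : v ≠ w) {n : ℕ}
    (hn : 1 ≤ n) : |P G d n (e w) v| < P G d n (e v) v := by
  have h1 := P_pos G d hconn hdeg n hn (g := e v - e w) (by
    intro h
    have := DFunLike.congr_fun h v
    simp [e, hvw.symm] at this)
  have h2 := P_pos G d hconn hdeg n hn (g := e v + e w) (by
    intro h
    have := DFunLike.congr_fun h v
    simp [e, hvw.symm] at this)
  simp only [map_sub, map_add, LinearMap.sub_apply, LinearMap.add_apply, B_single_right] at h1 h2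
  have h3 := P_symm G d n v w
  have h4 := hdiag n v w
  rw [abs_lt]
  simp only [e] at *
  constructor <;> omega

/-- The bound used most. -/
theorem off_le [Infinite V] (hconn : G.Connected) (hdeg : ∀ v, G.degree v = d)
    (hdiag : ∀ n v w, P G d n (e v) v = P G d n (e w) w) (v w : V) (n : ℕ) :
    |P G d n (e w) v| ≤ P G d n (e v) v := by
  rcases Nat.eq_zero_or_pos n with rfl | h
  · simp [P_zero]
  · by_cases hvw : v = w
    · subst hvw
      rw [abs_of_nonneg (diag_nonneg G d hconn hdeg v n)]
    · exact (off_lt G d hconn hdeg hdiag hvw h).le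

/-! ## Distances -/

theorem P_far (hconn : G.Connected) (v : V) (n : ℕ) : ∀ w, n ≤ G.dist v w → P G d n (e v) w = 0 := by
  induction n using Nat.twoStepInduction with
  | zero => intro w _; simp [P_zero]
  | one =>
    intro w hw
    have : v ≠ w := by
      rintro rfl
      simp at hw
    simp [P_one, e, this]
  | more n h1 h2 =>
    intro w hw
    rw [P_succ, LinearMap.sub_apply, Module.End.mul_apply, Finsupp.sub_apply, TL_apply,
      h2 w (by omega), h1 w (by omega)]
    have : ∑ u ∈ G.neighborFinset w, P G d (n + 1) (e v) u = 0 := by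
      apply Finset.sum_eq_zero
      intro u hu
      rw [SimpleGraph.mem_neighborFinset] at hu
      apply h2
      have h3 := hconn.dist_triangle (u := v) (v := u) (w := w)
      have h4 : G.dist u w = 1 := SimpleGraph.dist_eq_one_iff_adj.mpr hu.symm
      omega
    rw [this]
    simp

theorem exists_pred (hconn : G.Connected) {v w : V} {r : ℕ} (h : G.dist v w = r + 1) :
    ∃ u, G.Adj w u ∧ G.dist v u = r := by
  obtain ⟨p, hp⟩ := hconn.exists_walk_length_eq_dist w v
  cases p with
  | nil => simp [SimpleGraph.dist_self] at h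
  | @cons _ u _ hwu p =>
    refine ⟨u, hwu, ?_⟩
    rw [SimpleGraph.Walk.length_cons, SimpleGraph.dist_comm, h] at hp
    have h1 : G.dist u v ≤ p.length := SimpleGraph.dist_le p
    have h2 := hconn.dist_triangle (u := v) (v := u) (w := w)
    have h3 : G.dist u w = 1 := SimpleGraph.dist_eq_one_iff_adj.mpr hwu.symm
    rw [SimpleGraph.dist_comm] at h1
    omega

theorem P_sphere (hconn : G.Connected) (v : V) (n : ℕ) : ∀ w, G.dist v w = n →
    0 < (-1) ^ n * P G d (n + 1) (e v) w := by
  induction n with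
  | zero =>
    intro w hw
    have : v = w := by
      rcases (SimpleGraph.dist_eq_zero_iff_eq_or_not_reachable).mp hw with h | h
      · exact h
      · exact absurd (hconn.preconnected v w) h
    subst this
    simp [P_one, e]
  | succ n ih =>
    intro w hw
    rw [P_succ, LinearMap.sub_apply, Module.End.mul_apply, Finsupp.sub_apply, TL_apply,
      P_far G d hconn v (n + 1) w (by omega), P_far G d hconn v n w (by omega)]
    have hsum : (-1) ^ (n + 1) * (((d : ℤ) + 2) * 0 - ∑ u ∈ G.neighborFinset w,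
        P G d (n + 1) (e v) u - 0) = ∑ u ∈ G.neighborFinset w, (-1) ^ n * P G d (n + 1) (e v) u := by
      rw [← Finset.mul_sum, pow_succ]
      ring
    rw [hsum]
    have hnn : ∀ u ∈ G.neighborFinset w, 0 ≤ (-1) ^ n * P G d (n + 1) (e v) u := by
      intro u hu
      rw [SimpleGraph.mem_neighborFinset] at hu
      have h3 := hconn.dist_triangle (u := v) (v := u) (w := w)
      have h4 : G.dist u w = 1 := SimpleGraph.dist_eq_one_iff_adj.mpr hu.symm
      rcases Nat.lt_or_ge n (G.dist v u) with h | h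
      · rw [P_far G d hconn v (n + 1) u (by omega)]; simp
      · exact (ih u (by omega)).le
    obtain ⟨u0, hu0, hd0⟩ := exists_pred G hconn hw
    exact Finset.sum_pos' hnn ⟨u0, by rw [SimpleGraph.mem_neighborFinset]; exact hu0, ih u0 hd0⟩

theorem P_sphere_ne (hconn : G.Connected) {v w : V} {n : ℕ} (h : G.dist v w = n) :
    P G d (n + 1) (e v) w ≠ 0 := by
  intro h0
  have := P_sphere G d hconn v n w h
  rw [h0, mul_zero] at this
  exact lt_irrefl _ this

theorem ball_finite (hconn : G.Connected) (v : V) (r : ℕ) : {w | G.dist v w ≤ r}.Finite := by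
  induction r with
  | zero =>
    refine (Set.finite_singleton v).subset ?_
    intro w hw
    simp only [Set.mem_ofPred_eq, Nat.le_zero] at hw
    rcases (SimpleGraph.dist_eq_zero_iff_eq_or_not_reachable).mp hw with h | h
    · exact h.symm
    · exact absurd (hconn.preconnected v w) h
  | succ r ih =>
    refine (ih.union (ih.biUnion (fun u _ => (G.neighborFinset u).finite_toSet))).subset ?_
    intro w hw
    simp only [Set.mem_ofPred_eq] at hw
    rcases Nat.lt_or_ge r (G.dist v w) with h | h
    · right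
      obtain ⟨u, hu, hd⟩ := exists_pred G hconn (v := v) (w := w) (r := r) (by omega)
      simp only [Set.mem_iUnion, Set.mem_ofPred_eq, exists_prop]
      refine ⟨u, hd.le, ?_⟩
      rw [Finset.mem_coe, SimpleGraph.mem_neighborFinset]
      exact hu.symm
    · left; exact h

/-- Points on geodesics. -/
theorem on_geodesic (hconn : G.Connected) (v u : V) : ∀ k ≤ G.dist v u, ∃ w, G.dist v w = k ∧
    G.dist w u = G.dist v u - k := by
  intro k
  induction k with
  | zero => intro _; exact ⟨v, by simp, by simp⟩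
  | succ k ih =>
    intro hk
    obtain ⟨w, h1, h2⟩ := ih (by omega)
    obtain ⟨w', hw', h3⟩ := exists_pred G hconn (v := u) (w := w) (r := G.dist v u - (k + 1)) (by
      rw [SimpleGraph.dist_comm]; omega)
    refine ⟨w', ?_, by rw [SimpleGraph.dist_comm]; exact h3⟩
    have h4 := hconn.dist_triangle (u := v) (v := w) (w := w')
    have h5 : G.dist w w' = 1 := SimpleGraph.dist_eq_one_iff_adj.mpr hw'
    have h6 := hconn.dist_triangle (u := v) (v := w') (w := u)
    rw [SimpleGraph.dist_comm] at h3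
    omega

theorem iso_dist (hconn : G.Connected) (σ : G ≃g G) (u v : V) : G.dist (σ u) (σ v) = G.dist u v := by
  apply le_antisymm
  · obtain ⟨p, hp⟩ := hconn.exists_walk_length_eq_dist u v
    have := SimpleGraph.dist_le (p.map σ.toHom)
    rw [SimpleGraph.Walk.length_map, hp] at this
    exact this
  · obtain ⟨p, hp⟩ := hconn.exists_walk_length_eq_dist (σ u) (σ v)
    have := SimpleGraph.dist_le (p.map σ.symm.toHom)
    rw [SimpleGraph.Walk.length_map, hp] at this
    simpa using this

/-- Antipodal points around each vertex. -/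
theorem exists_antipodal [Infinite V] (hconn : G.Connected) (htr : ∀ u v, ∃ σ : G ≃g G, σ u = v)
    (v : V) (m : ℕ) : ∃ x y, G.dist v x = m ∧ G.dist v y = m ∧ G.dist x y = 2 * m := by
  obtain ⟨u, hu⟩ : ∃ u, 2 * m ≤ G.dist v u := by
    by_contra hcon
    push Not at hcon
    apply Set.infinite_univ (α := V)
    exact (ball_finite G hconn v (2 * m)).subset (fun u _ => (hcon u).le)
  obtain ⟨b, hb, _⟩ := on_geodesic G hconn v u (2 * m) hu
  obtain ⟨c, hc1, hc2⟩ := on_geodesic G hconn v b m (by omega)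
  obtain ⟨σ, hσ⟩ := htr c v
  refine ⟨σ v, σ b, ?_, ?_, ?_⟩
  · have := iso_dist G hconn σ c v
    rw [hσ] at this
    rw [this, SimpleGraph.dist_comm]; exact hc1
  · have := iso_dist G hconn σ c b
    rw [hσ] at this
    rw [this]; omega
  · rw [iso_dist G hconn]; exact hb

theorem iso_adjL (σ : G ≃g G) (f : V →₀ ℤ) :
    adjL G (Finsupp.mapDomain σ f) = Finsupp.mapDomain σ (adjL G f) := by
  induction f using Finsupp.induction_linear with
  | zero => simp
  | add f g hf hg => rw [Finsupp.mapDomain_add, map_add, hf, hg, map_add, Finsupp.mapDomain_add]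
  | single v a =>
    rw [Finsupp.mapDomain_single, adjL_single, adjL_single, Finsupp.mapDomain_smul,
      Finsupp.mapDomain_finsetSum]
    congr 1
    simp only [Finsupp.mapDomain_single]
    symm
    apply Finset.sum_bij (fun w _ => σ w)
    · intro w hw
      rw [SimpleGraph.mem_neighborFinset] at hw ⊢
      exact σ.map_adj_iff.mpr hw
    · intro a _ b _ hab; exact σ.injective hab
    · intro b hb
      rw [SimpleGraph.mem_neighborFinset] at hb
      refine ⟨σ.symm b, ?_, by simp⟩
      rw [SimpleGraph.mem_neighborFinset]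
      have := σ.symm.map_adj_iff.mpr hb
      simpa using this
    · intro w _; rfl

theorem iso_P (σ : G ≃g G) (n : ℕ) : ∀ f : V →₀ ℤ,
    P G d n (Finsupp.mapDomain σ f) = Finsupp.mapDomain σ (P G d n f) := by
  induction n using Nat.twoStepInduction with
  | zero => intro f; simp [P_zero]
  | one => intro f; simp [P_one]
  | more n h1 h2 =>
    intro f
    rw [P_succ, LinearMap.sub_apply, Module.End.mul_apply, h1, h2, LinearMap.sub_apply,
      Module.End.mul_apply]
    have : ∀ f : V →₀ ℤ, TL G d (Finsupp.mapDomain σ f) = Finsupp.mapDomain σ (TL G d f) := by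
      intro f
      simp only [TL, LinearMap.sub_apply, LinearMap.smul_apply, Module.End.one_apply, iso_adjL]
      rw [sub_eq_add_neg, sub_eq_add_neg, Finsupp.mapDomain_add, Finsupp.mapDomain_smul,
        ← neg_one_smul ℤ (Finsupp.mapDomain _ _), ← neg_one_smul ℤ (adjL G f),
        Finsupp.mapDomain_smul]
    rw [this, sub_eq_add_neg, sub_eq_add_neg, Finsupp.mapDomain_add,
      ← neg_one_smul ℤ (Finsupp.mapDomain _ _), ← neg_one_smul ℤ (P G d n f),
      Finsupp.mapDomain_smul]

theorem diag_const (htr : ∀ u v, ∃ σ : G ≃g G, σ u = v) (n : ℕ) (v w : V) :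
    P G d n (e v) v = P G d n (e w) w := by
  obtain ⟨σ, hσ⟩ := htr v w
  have h1 : e w = Finsupp.mapDomain σ (e v) := by rw [Finsupp.mapDomain_single, hσ]
  rw [h1, iso_P, ← hσ, Finsupp.mapDomain_apply σ.injective]

end Positivity

end Q47HL
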