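import Pool.Agent.Q47.HL.Gen
import Pool.Agent.Q47.HL.Ker

/-!
# Families with a finite module: sums of exponentials
-/

namespace Q47HL

set_option linter.unusedSectionVars false

open Finset Matrix

section Matrix

variable {K : Type*} [Fintype K] [DecidableEq K]

/-- Solutions of the vector recursion with a symmetric matrix all of whose eigenvalues are
greater than two are sums of exponentials. -/
theorem matrix_ExpSum (M : Matrix K K ℝ) (hM : M.IsHermitian)
    (hpos : ∀ x : K → ℝ, x ≠ 0 → 2 * (x ⬝ᵥ x) < x ⬝ᵥ (M *ᵥ x))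
    (G : ℤ → K → ℝ) (h0 : G 0 = 0) (hrec : ∀ n, G (n + 1) = M *ᵥ (G n) - G (n - 1)) (u : K) :
    (fun n => G n u) ∈ ExpSum := by
  let b : K → K → ℝ := fun j => ⇑(hM.eigenvectorBasis j)
  let τ : K → ℝ := hM.eigenvalues
  have hb : ∀ j, M *ᵥ (b j) = τ j • b j := fun j => hM.mulVec_eigenvectorBasis j
  have hbne : ∀ j, b j ≠ 0 := by
    intro j hj
    have h1 := hM.eigenvectorBasis.orthonormal.ne_zero j
    apply h1
    ext u
    exact congrFun hj u
  have hτ : ∀ j, 2 < τ j := by
    intro j
    have h1 := hpos (b j) (hbne j)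
    rw [hb j, dotProduct_smul, smul_eq_mul] at h1
    have h2 : 0 < b j ⬝ᵥ b j := by
      have h3 : 0 ≤ b j ⬝ᵥ b j := by
        unfold dotProduct
        exact Finset.sum_nonneg (fun i _ => mul_self_nonneg _)
      rcases h3.lt_or_eq with h | h
      · exact h
      · exfalso
        apply hbne j
        exact dotProduct_self_eq_zero.mp h.symm
    exact lt_of_mul_lt_mul_right h1 h2.le
  have hMt : Mᵀ = M := by
    have := hM
    unfold Matrix.IsHermitian at this
    rw [Matrix.conjTranspose_eq_transpose_of_trivial] at this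
    exact this
  -- coordinates
  have hcoord : ∀ j, (fun n => b j ⬝ᵥ G n) ∈ ExpSum := by
    intro j
    apply rec_mem_ExpSum (τ j) (hτ j)
    · rw [h0, dotProduct_zero]
    · intro n
      rw [hrec, dotProduct_sub, Matrix.dotProduct_mulVec, ← Matrix.mulVec_transpose, hMt, hb j,
        smul_dotProduct, smul_eq_mul]
  have hG : ∀ n, G n u = ∑ j, b j u * (b j ⬝ᵥ G n) := by
    intro n
    have h1 := hM.eigenvectorBasis.sum_repr' (WithLp.toLp 2 (G n))
    have h2 := congrArg (fun x : EuclideanSpace ℝ K => x u) h1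
    simp only at h2
    rw [← h2]
    simp only [WithLp.ofLp_sum, Finset.sum_apply, smul_eq_mul, WithLp.ofLp_smul, Pi.smul_apply]
    apply Finset.sum_congr rfl
    intro j _
    rw [mul_comm]
    congr 1
    simp only [PiLp.inner_apply, dotProduct, b]
    apply Finset.sum_congr rfl
    intro i _
    simp [mul_comm]
  have : (fun n => G n u) = ∑ j, b j u • (fun n => b j ⬝ᵥ G n) := by
    ext n
    rw [hG n, Finset.sum_apply]
    rfl
  rw [this]
  exact Submodule.sum_mem _ (fun j _ => ExpSum.smul_mem _ (hcoord j))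

end Matrix

section Graph

variable {V : Type*} [DecidableEq V] (G : SimpleGraph V) [G.LocallyFinite] (d : ℕ)

theorem PZ_supp {g : V →₀ ℤ} {K : Finset V} (hK : ∀ j, (P G d j g).support ⊆ K) (n : ℤ) :
    (PZ G d n g).support ⊆ K := by
  unfold PZ
  rw [LinearMap.smul_apply]
  exact (Finsupp.support_smul).trans (hK _)

open Classical in
theorem PZ_ExpSum [Infinite V] (hconn : G.Connected) (hdeg : ∀ v, G.degree v = d)
    {g : V →₀ ℤ} {K : Finset V} (hK : ∀ j, (P G d j g).support ⊆ K) (u : V) :
    (fun n : ℤ => ((PZ G d n g u : ℤ) : ℝ)) ∈ ExpSum := by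
  by_cases hu : u ∈ K
  swap
  · have : (fun n : ℤ => ((PZ G d n g u : ℤ) : ℝ)) = 0 := by
      ext n
      have h1 : u ∉ (PZ G d n g).support := fun h => hu (PZ_supp G d hK n h)
      rw [Finsupp.notMem_support_iff.mp h1]
      simp
    rw [this]
    exact ExpSum.zero_mem
  let M : Matrix K K ℝ := fun u w => (if u = w then ((d : ℝ) + 2) else 0) -
    (if G.Adj u.1 w.1 then 1 else 0)
  have hM : M.IsHermitian := by
    apply Matrix.IsHermitian.ext
    intro u w
    rw [star_trivial]
    simp only [M]
    rw [G.adj_comm]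
    congr 1
    by_cases h : u = w
    · simp [h]
    · rw [if_neg h, if_neg (fun h' => h h'.symm)]
  have hmul : ∀ (x : K → ℝ) (u : K), (M *ᵥ x) u = ((d : ℝ) + 2) * x u -
      ∑ w : K, (if G.Adj u.1 w.1 then x w else 0) := by
    intro x u
    simp only [Matrix.mulVec, dotProduct, M, sub_mul, Finset.sum_sub_distrib, ite_mul, zero_mul,
      one_mul, Finset.sum_ite_eq, Finset.mem_univ, if_true]
  have hpos : ∀ x : K → ℝ, x ≠ 0 → 2 * (x ⬝ᵥ x) < x ⬝ᵥ (M *ᵥ x) := by
    intro x hx
    let h : V → ℝ := fun v => if hv : v ∈ K then x ⟨v, hv⟩ else 0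
    have hh : ∀ v : K, h v.1 = x v := by
      intro v
      simp only [h]
      rw [dif_pos v.2]
    have hne : ∃ v ∈ K, h v ≠ 0 := by
      obtain ⟨v, hv⟩ := Function.ne_iff.mp hx
      exact ⟨v.1, v.2, by rw [hh]; exact hv⟩
    have hq := quad_lt G d hconn hdeg K h hne
    have q1 : ∑ u ∈ K, ∑ w ∈ K, (if G.Adj u w then h u * h w else 0) =
        ∑ v : K, ∑ w : K, (if G.Adj v.1 w.1 then x v * x w else 0) := by
      rw [← Finset.sum_coe_sort K (fun u => ∑ w ∈ K, (if G.Adj u w then h u * h w else 0))]
      apply Finset.sum_congr rfl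
      intro v _
      rw [← Finset.sum_coe_sort K (fun w => if G.Adj v.1 w then h v.1 * h w else 0)]
      simp only [hh]
    have q2 : ∑ u ∈ K, h u ^ 2 = ∑ v : K, x v ^ 2 := by
      rw [← Finset.sum_coe_sort K (fun u => h u ^ 2)]
      simp only [hh]
    rw [q1, q2] at hq
    have e2 : x ⬝ᵥ (M *ᵥ x) = ((d : ℝ) + 2) * (x ⬝ᵥ x) -
        ∑ v : K, ∑ w : K, (if G.Adj v.1 w.1 then x v * x w else 0) := by
      simp only [dotProduct, hmul, mul_sub, Finset.sum_sub_distrib, Finset.mul_sum]
      congr 1
      · apply Finset.sum_congr rfl; intro v _; ring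
      · apply Finset.sum_congr rfl; intro v _
        apply Finset.sum_congr rfl; intro w _
        rw [mul_ite, mul_zero]
    have e3 : ∑ v : K, x v ^ 2 = x ⬝ᵥ x := by
      simp only [dotProduct]
      apply Finset.sum_congr rfl; intro v _; ring
    rw [e3] at hq
    rw [e2]
    linarith
  let F : ℤ → K → ℝ := fun n v => ((PZ G d n g v.1 : ℤ) : ℝ)
  have h0 : F 0 = 0 := by
    ext v
    simp [F, PZ]
  have hrec : ∀ n, F (n + 1) = M *ᵥ (F n) - F (n - 1) := by
    intro n
    ext v
    rw [Pi.sub_apply, hmul]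
    simp only [F]
    rw [PZ_rec, LinearMap.sub_apply, Module.End.mul_apply, Finsupp.sub_apply, TL_apply]
    push_cast
    congr 2
    rw [Finset.sum_coe_sort K (fun w => if G.Adj v.1 w then (((PZ G d n g) w : ℤ) : ℝ) else 0)]
    rw [← Finset.sum_filter]
    symm
    apply Finset.sum_subset_zero_on_sdiff
    · intro w hw
      rw [Finset.mem_filter] at hw
      rw [SimpleGraph.mem_neighborFinset]
      exact hw.2
    · intro w hw
      rw [Finset.mem_sdiff, Finset.mem_filter, SimpleGraph.mem_neighborFinset] at hw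
      have : w ∉ (PZ G d n g).support := fun h => hw.2 ⟨PZ_supp G d hK n h, hw.1⟩
      rw [Finsupp.notMem_support_iff.mp this]
      simp
    · intro w _; rfl
  exact matrix_ExpSum M hM hpos F h0 hrec ⟨u, hu⟩

/-- **Dichotomy**: if `P n g` is supported in one finite set for infinitely many `n`, then all
`P n g` are supported in one finite set. -/
theorem dichotomy (g : V →₀ ℤ) (F1 : Finset V)
    (hinf : {n : ℤ | (PZ G d n g).support ⊆ F1}.Infinite) :
    ∃ K : Finset V, ∀ j, (P G d j g).support ⊆ K := by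
  classical
  -- infinitely many natural indices
  have hinf' : {m : ℕ | 1 ≤ m ∧ (P G d m g).support ⊆ F1}.Infinite := by
    intro hfin
    apply hinf
    have : {n : ℤ | (PZ G d n g).support ⊆ F1} ⊆ {0} ∪
        ⋃ m ∈ {m : ℕ | 1 ≤ m ∧ (P G d m g).support ⊆ F1}, ({(m : ℤ), -(m : ℤ)} : Set ℤ) := by
      intro n hn
      rcases eq_or_ne n 0 with h0 | h0
      · left; exact h0
      right
      simp only [Set.mem_iUnion, exists_prop]
      refine ⟨n.natAbs, ⟨by omega, ?_⟩, ?_⟩
      · have hn' : (PZ G d n g).support ⊆ F1 := hn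
        unfold PZ at hn'
        rcases Int.lt_trichotomy n 0 with h | h | h
        · rw [Int.sign_eq_neg_one_of_neg h, neg_smul, one_smul, LinearMap.neg_apply,
            Finsupp.support_neg] at hn'
          exact hn'
        · exact absurd h h0
        · rw [Int.sign_eq_one_of_pos h, one_smul] at hn'
          exact hn'
      · rcases le_total 0 n with h | h
        · left; exact (Int.natAbs_of_nonneg h).symm
        · right
          simp only [Set.mem_singleton_iff]
          omega
    exact ((Set.finite_singleton _).union (hfin.biUnion (fun m _ => Set.toFinite _))).subset this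
  -- choose more indices than the rank
  obtain ⟨J, hJ, hJc⟩ := hinf'.exists_subset_card_eq (F1.card + 1)
  -- restriction to F1
  let v : J → (F1 → ℤ) := fun m u => P G d m.1 g u.1
  have hdep : ¬ LinearIndependent ℤ v := by
    intro hli
    have := hli.fintype_card_le_finrank
    rw [Module.finrank_fintype_fun_eq_card, Fintype.card_coe, Fintype.card_coe] at this
    omega
  rw [Fintype.not_linearIndependent_iff] at hdep
  obtain ⟨c, hc, ⟨j0, hj0⟩⟩ := hdep
  have hzero : ∑ m : J, c m • P G d m.1 g = 0 := by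
    ext u
    rw [Finsupp.finsetSum_apply]
    simp only [Finsupp.smul_apply]
    by_cases hu : u ∈ F1
    · have := congrFun hc ⟨u, hu⟩
      rw [Finset.sum_apply] at this
      exact this
    · apply Finset.sum_eq_zero
      intro m _
      have h1 : u ∉ (P G d m.1 g).support := fun h => hu ((hJ m.2).2 h)
      rw [Finsupp.notMem_support_iff.mp h1, smul_zero]
  -- the largest index with nonzero coefficient
  let Z := (Finset.univ : Finset J).filter (fun m => c m ≠ 0)
  have hZ : Z.Nonempty := ⟨j0, by simp [Z, hj0]⟩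
  obtain ⟨M, hMZ, hMmax⟩ := Z.exists_max_image (fun m => m.1) hZ
  have hcM : c M ≠ 0 := by
    have := Finset.mem_filter.mp hMZ
    exact this.2
  let W : Submodule ℤ (V →₀ ℤ) := Submodule.span ℤ ((fun i => P G d i g) '' Set.Iio M.1)
  let sat : (V →₀ ℤ) → Prop := fun h => ∃ a : ℤ, a ≠ 0 ∧ a • h ∈ W
  have hsat_W : ∀ h ∈ W, sat h := fun h hh => ⟨1, one_ne_zero, by rwa [one_smul]⟩
  have hsat_add : ∀ h k, sat h → sat k → sat (h + k) := by
    rintro h k ⟨a, ha, hha⟩ ⟨b, hb, hkb⟩
    refine ⟨a * b, mul_ne_zero ha hb, ?_⟩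
    rw [smul_add]
    apply W.add_mem
    · rw [mul_comm, mul_smul]; exact W.smul_mem _ hha
    · rw [mul_smul]; exact W.smul_mem _ hkb
  have hsat_smul : ∀ (a : ℤ) h, sat h → sat (a • h) := by
    rintro a h ⟨b, hb, hhb⟩
    refine ⟨b, hb, ?_⟩
    rw [smul_comm]
    exact W.smul_mem _ hhb
  have hsat_div : ∀ (a : ℤ) h, a ≠ 0 → sat (a • h) → sat h := by
    rintro a h ha ⟨b, hb, hhb⟩
    exact ⟨b * a, mul_ne_zero hb ha, by rwa [mul_smul]⟩
  have hPM : sat (P G d M.1 g) := by
    refine ⟨c M, hcM, ?_⟩
    rw [← Finset.add_sum_erase _ _ (Finset.mem_univ M)] at hzero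
    have : c M • P G d M.1 g = -∑ x ∈ Finset.univ.erase M, c x • P G d x.1 g :=
      eq_neg_of_add_eq_zero_left hzero
    rw [this]
    apply W.neg_mem
    apply W.sum_mem
    intro m hm
    by_cases hcm : c m = 0
    · rw [hcm, zero_smul]; exact W.zero_mem
    · apply W.smul_mem
      apply Submodule.subset_span
      refine ⟨m.1, ?_, rfl⟩
      have h1 : m.1 ≤ M.1 := hMmax m (by simp [Z, hcm])
      have h2 : m.1 ≠ M.1 := by
        intro h
        exact (Finset.mem_erase.mp hm).1 (Subtype.ext h)
      exact lt_of_le_of_ne h1 h2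
  have hPi : ∀ i ≤ M.1, sat (P G d i g) := by
    intro i hi
    rcases hi.lt_or_eq with h | h
    · exact hsat_W _ (Submodule.subset_span ⟨i, h, rfl⟩)
    · rw [h]; exact hPM
  have hTW : ∀ h ∈ W, sat (TL G d h) := by
    intro h hh
    induction hh using Submodule.span_induction with
    | mem x hx =>
      obtain ⟨i, hi, rfl⟩ := hx
      simp only
      have hi' : i < M.1 := hi
      rcases Nat.eq_zero_or_pos i with rfl | hi0
      · rw [P_zero]
        simp only [LinearMap.zero_apply, map_zero]
        exact hsat_W _ W.zero_mem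
      · obtain ⟨k, rfl⟩ : ∃ k, i = k + 1 := ⟨i - 1, by omega⟩
        have e : TL G d (P G d (k + 1) g) = P G d (k + 2) g + P G d k g := by
          rw [P_succ, LinearMap.sub_apply, Module.End.mul_apply]; abel
        rw [e]
        exact hsat_add _ _ (hPi _ (by omega)) (hPi _ (by omega))
    | zero => rw [map_zero]; exact hsat_W _ W.zero_mem
    | add x y _ _ hx hy => rw [map_add]; exact hsat_add _ _ hx hy
    | smul a x _ hx => rw [map_smul]; exact hsat_smul _ _ hx
  have hT : ∀ h, sat h → sat (TL G d h) := by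
    rintro h ⟨a, ha, hha⟩
    have := hTW _ hha
    rw [map_smul] at this
    exact hsat_div a _ ha this
  have hall : ∀ j, sat (P G d j g) := by
    intro j
    induction j using Nat.twoStepInduction with
    | zero => rw [P_zero]; exact hsat_W _ W.zero_mem
    | one => exact hPi 1 (hJ M.2).1
    | more n h1 h2 =>
      rw [P_succ, LinearMap.sub_apply, Module.End.mul_apply, sub_eq_add_neg, ← neg_one_smul ℤ]
      exact hsat_add _ _ (hT _ h2) (hsat_smul _ _ h1)
  refine ⟨(Finset.range M.1).biUnion (fun i => (P G d i g).support), ?_⟩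
  intro j u hu
  obtain ⟨a, ha, hha⟩ := hall j
  have hsupp : ∀ h ∈ W, h.support ⊆ (Finset.range M.1).biUnion (fun i => (P G d i g).support) := by
    intro h hh
    induction hh using Submodule.span_induction with
    | mem x hx =>
      obtain ⟨i, hi, rfl⟩ := hx
      exact Finset.subset_biUnion_of_mem (fun i => (P G d i g).support) (Finset.mem_range.mpr hi)
    | zero => simp
    | add x y _ _ hx hy => exact (Finsupp.support_add).trans (Finset.union_subset hx hy)
    | smul a x _ hx => exact (Finsupp.support_smul).trans hx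
  apply hsupp _ hha
  rw [Finsupp.mem_support_iff] at hu ⊢
  rw [Finsupp.smul_apply]
  exact smul_ne_zero ha hu

end Graph

end Q47HL
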