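import Mathlib

/-!
# Back-and-forth for families of integral functionals; thin sets; sums of exponentials
-/

namespace Q47HL

open Finset

/-! ## Back-and-forth -/

section BF

variable {I P : Type*}

/-- Evaluation of a finitely supported integral functional. -/
noncomputable def ev (x : I → ℤ) (g : I →₀ ℤ) : ℤ := Finsupp.linearCombination ℤ x g

theorem ev_sub (x : I → ℤ) (g h : I →₀ ℤ) : ev x (g - h) = ev x g - ev x h := by
  simp [ev]

theorem ev_congr {x y : I → ℤ} {g : I →₀ ℤ} (h : ∀ i ∈ g.support, x i = y i) :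
    ev x g = ev y g := by
  simp only [ev, Finsupp.linearCombination_apply, Finsupp.sum]
  exact Finset.sum_congr rfl (fun i hi => by rw [h i hi])

/-- All determined differences are nonzero. -/
def Good (ℓ : P → I →₀ ℤ) (F : Finset I) (x : I → ℤ) : Prop :=
  ∀ p q, p ≠ q → (ℓ p - ℓ q).support ⊆ F → ev x (ℓ p - ℓ q) ≠ 0

/-- The states of the construction. -/
structure State (ℓ : P → I →₀ ℤ) where
  F : Finset I
  x : I → ℤ
  good : Good ℓ F x

instance (ℓ : P → I →₀ ℤ) : Preorder (State ℓ) where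
  le s t := s.F ⊆ t.F ∧ ∀ i ∈ s.F, s.x i = t.x i
  le_refl s := ⟨fun _ h => h, fun _ _ => rfl⟩
  le_trans s t u h1 h2 := ⟨h1.1.trans h2.1, fun i hi => (h1.2 i hi).trans (h2.2 i (h1.1 hi))⟩

theorem exists_bijective [Countable I] (ℓ : P → I →₀ ℤ)
    (H0 : Function.Injective ℓ)
    (HB : ∀ s : State ℓ, ∀ i : I, ∃ t : State ℓ, s ≤ t ∧ i ∈ t.F)
    (HA : ∀ s : State ℓ, ∀ k : ℤ, ∃ t : State ℓ, s ≤ t ∧ ∃ p, (ℓ p).support ⊆ t.F ∧
      ev t.x (ℓ p) = k) :
    ∃ x : I → ℤ, Function.Bijective (fun p => ev x (ℓ p)) := by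
  classical
  obtain ⟨hI⟩ := nonempty_encodable I
  let D : I ⊕ ℤ → Order.Cofinal (State ℓ) := fun τ => match τ with
    | .inl i => ⟨{t | i ∈ t.F}, fun s => by
        obtain ⟨t, h1, h2⟩ := HB s i
        exact ⟨t, h2, h1⟩⟩
    | .inr k => ⟨{t | ∃ p, (ℓ p).support ⊆ t.F ∧ ev t.x (ℓ p) = k}, fun s => by
        obtain ⟨t, h1, h2⟩ := HA s k
        exact ⟨t, h2, h1⟩⟩
  let s0 : State ℓ := ⟨∅, 0, by
    intro p q hpq hs
    exfalso
    apply hpq
    apply H0
    rw [Finset.subset_empty, Finsupp.support_eq_empty] at hs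
    exact sub_eq_zero.mp hs⟩
  let S := Order.sequenceOfCofinals s0 D
  have hmono : Monotone S := Order.sequenceOfCofinals.monotone s0 D
  have hmem : ∀ τ, S (Encodable.encode τ + 1) ∈ D τ := Order.sequenceOfCofinals.encode_mem s0 D
  have hinl : ∀ i : I, i ∈ (S (Encodable.encode (Sum.inl i : I ⊕ ℤ) + 1)).F :=
    fun i => hmem (Sum.inl i)
  let x : I → ℤ := fun i => (S (Encodable.encode (Sum.inl i : I ⊕ ℤ) + 1)).x i
  have hx : ∀ n, ∀ i ∈ (S n).F, x i = (S n).x i := by
    intro n i hi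
    rcases le_total n (Encodable.encode (Sum.inl i : I ⊕ ℤ) + 1) with h | h
    · exact ((hmono h).2 i hi).symm
    · exact (hmono h).2 i (hinl i)
  have hfin : ∀ K : Finset I, ∃ n, K ⊆ (S n).F := by
    intro K
    induction K using Finset.induction_on with
    | empty => exact ⟨0, by simp⟩
    | insert i K _ ih =>
      obtain ⟨n, hn⟩ := ih
      refine ⟨max n (Encodable.encode (Sum.inl i : I ⊕ ℤ) + 1), ?_⟩
      rw [Finset.insert_subset_iff]
      exact ⟨(hmono (le_max_right _ _)).1 (hinl i), hn.trans (hmono (le_max_left _ _)).1⟩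
  refine ⟨x, ?_, ?_⟩
  · intro p q hpq
    by_contra hne
    obtain ⟨n, hn⟩ := hfin (ℓ p - ℓ q).support
    have := (S n).good p q hne hn
    apply this
    rw [← ev_congr (fun i hi => hx n i (hn hi)), ev_sub]
    exact sub_eq_zero.mpr hpq
  · intro k
    obtain ⟨p, hp1, hp2⟩ := hmem (Sum.inr k)
    refine ⟨p, ?_⟩
    simp only
    rw [ev_congr (fun i hi => hx _ i (hp1 hi))]
    exact hp2

end BF

/-! ## Thin sets -/

/-- The weight. -/
noncomputable def wt (y : ℤ) : ℝ := 1 / (|(y : ℝ)| + 1)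

theorem wt_nonneg (y : ℤ) : 0 ≤ wt y := by unfold wt; positivity

/-- A set of integers with summable reciprocals. -/
def Thin (S : Set ℤ) : Prop := Summable (S.indicator wt)

theorem Thin.mono {S T : Set ℤ} (h : Thin T) (hST : S ⊆ T) : Thin S := by
  refine Summable.of_nonneg_of_le (fun y => Set.indicator_nonneg (fun _ _ => wt_nonneg _) y) ?_ h
  intro y
  exact Set.indicator_le_indicator_of_subset hST (fun y => wt_nonneg y) y

theorem Thin.of_finite {S : Set ℤ} (h : S.Finite) : Thin S := by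
  apply summable_of_hasFiniteSupport
  exact h.subset Set.support_indicator_subset

theorem Thin.union {S T : Set ℤ} (hS : Thin S) (hT : Thin T) : Thin (S ∪ T) := by
  refine Summable.of_nonneg_of_le (fun y => Set.indicator_nonneg (fun _ _ => wt_nonneg _) y) ?_
    (hS.add hT)
  intro y
  by_cases h1 : y ∈ S <;> by_cases h2 : y ∈ T <;> simp [h1, h2, wt_nonneg]

theorem Thin.biUnion {α : Type*} {K : Set α} (hK : K.Finite) {S : α → Set ℤ}
    (h : ∀ a ∈ K, Thin (S a)) : Thin (⋃ a ∈ K, S a) := by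
  induction K, hK using Set.Finite.induction_on with
  | empty => simpa using Thin.of_finite Set.finite_empty
  | @insert a K _ _ ih =>
    rw [Set.biUnion_insert]
    exact (h a (Set.mem_insert _ _)).union (ih (fun b hb => h b (Set.mem_insert_of_mem _ hb)))

theorem not_thin_univ : ¬ Thin (Set.univ : Set ℤ) := by
  intro h
  unfold Thin at h
  rw [Set.indicator_univ] at h
  have h2 := h.comp_injective (i := fun n : ℕ => (n : ℤ)) Nat.cast_injective
  have h3 : Summable (fun n : ℕ => 1 / (((n + 1 : ℕ) : ℝ))) := by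
    refine h2.congr (fun n => ?_)
    simp only [Function.comp, wt]
    push_cast
    rw [abs_of_nonneg (by positivity)]
  rw [summable_nat_add_iff (f := fun n : ℕ => 1 / ((n : ℝ))) 1] at h3
  exact Real.not_summable_one_div_natCast h3

theorem Thin.exists_notMem {S : Set ℤ} (h : Thin S) : ∃ y, y ∉ S := by
  by_contra hcon
  push Not at hcon
  apply not_thin_univ
  exact h.mono (fun y _ => hcon y)

/-- Integral values of a sequence of exponential growth form a thin set. -/
theorem Thin.of_growth {S : Set ℤ} (r : ℕ → ℝ) (c θ : ℝ) (hc : 0 < c) (hθ : 1 < θ)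
    (hr : ∀ n, c * θ ^ n ≤ |r n|) (hS : ∀ y ∈ S, ∃ n : ℕ, (y : ℝ) = r n) : Thin S := by
  unfold Thin
  rw [← summable_subtype_iff_indicator]
  choose n hn using hS
  have hsum : Summable (fun m : ℕ => 1 / (c * θ ^ m)) := by
    have h1 : Summable (fun m : ℕ => (1 / θ) ^ m) :=
      summable_geometric_of_lt_one (by positivity) (by rw [div_lt_one (by positivity)]; exact hθ)
    refine (h1.mul_left (1 / c)).congr (fun m => ?_)
    rw [one_div_pow]
    field_simp
  have hinj : Function.Injective (fun y : S => n y.1 y.2) := by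
    intro a b hab
    simp only at hab
    have h1 := hn a.1 a.2
    rw [hab, ← hn b.1 b.2] at h1
    exact Subtype.ext (by exact_mod_cast h1)
  refine Summable.of_nonneg_of_le (fun y => wt_nonneg _) ?_ (hsum.comp_injective hinj)
  rintro ⟨y, hy⟩
  simp only [Function.comp, wt]
  have h1 := hr (n y hy)
  rw [← hn y hy] at h1
  have h2 : 0 < c * θ ^ n y hy := by positivity
  exact one_div_le_one_div_of_le h2 (by linarith)

/-! ## Sums of exponentials -/

/-- A sequence is eventually zero-free and asymptotic to a multiple of an exponential. -/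
def Asym (s : ℕ → ℝ) : Prop :=
  ∃ c β : ℝ, c ≠ 0 ∧ 0 < β ∧ Filter.Tendsto (fun n : ℕ => s n / β ^ n) Filter.atTop (nhds c)

theorem thin_half (a b : ℕ → ℝ) (ha : (∀ n, a n = 0) ∨ Asym a) (hb : (∀ n, b n = 0) ∨ Asym b) :
    Thin {y : ℤ | ∃ n : ℕ, a n ≠ 0 ∧ a n * y + b n = 0} := by
  rcases ha with ha | ⟨ca, βa, hca, hβa, hta⟩
  · refine (Thin.of_finite Set.finite_empty).mono ?_
    rintro y ⟨n, hn, _⟩
    exact absurd (ha n) hn
  rcases hb with hb | ⟨cb, βb, hcb, hβb, htb⟩
  · refine (Thin.of_finite (Set.finite_singleton (0 : ℤ))).mono ?_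
    rintro y ⟨n, hn, h⟩
    rw [hb n, add_zero] at h
    rcases mul_eq_zero.mp h with h | h
    · exact absurd h hn
    · simpa using h
  -- the quotient
  let θ : ℝ := βb / βa
  have hθ : 0 < θ := div_pos hβb hβa
  let ρ : ℝ := -(cb / ca)
  have hρ : ρ ≠ 0 := neg_ne_zero.mpr (div_ne_zero hcb hca)
  have hlim : Filter.Tendsto (fun n : ℕ => -(b n / a n) / θ ^ n) Filter.atTop (nhds ρ) := by
    have h1 := (htb.div hta hca).neg
    refine h1.congr (fun n => ?_)
    simp only [θ, div_pow, Pi.div_apply]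
    have e1 : βa ^ n ≠ 0 := by positivity
    have e2 : βb ^ n ≠ 0 := by positivity
    field_simp
  have habs := hlim.abs
  have hρ' : 0 < |ρ| := abs_pos.mpr hρ
  -- split into small and large n
  have hsplit : ∀ N : ℕ, Thin {y : ℤ | ∃ n : ℕ, n < N ∧ a n ≠ 0 ∧ a n * y + b n = 0} := by
    intro N
    have : {y : ℤ | ∃ n : ℕ, n < N ∧ a n ≠ 0 ∧ a n * y + b n = 0} =
        ⋃ n ∈ (Set.Iio N), {y : ℤ | a n ≠ 0 ∧ a n * y + b n = 0} := by
      ext y
      simp only [Set.mem_setOf_eq, Set.mem_iUnion, Set.mem_Iio, exists_prop]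
    rw [this]
    apply Thin.biUnion (Set.finite_Iio N)
    intro n _
    apply Thin.of_finite
    apply Set.Subsingleton.finite
    rintro y ⟨h1, h2⟩ y' ⟨_, h2'⟩
    have h3 : a n * ((y : ℝ) - y') = 0 := by linarith
    rcases mul_eq_zero.mp h3 with h | h
    · exact absurd h h1
    · exact_mod_cast sub_eq_zero.mp h
  by_cases hcase : θ ≤ 1
  · -- bounded case
    obtain ⟨N, hN⟩ := (habs.eventually (gt_mem_nhds (show |ρ| < |ρ| + 1 by linarith))).exists_forall_of_atTop
    refine ((hsplit N).union (Thin.of_finite (Set.finite_Icc (-⌈|ρ| + 1⌉) ⌈|ρ| + 1⌉))).mono ?_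
    rintro y ⟨n, hn, h⟩
    rcases lt_or_ge n N with h' | h'
    · exact Or.inl ⟨n, h', hn, h⟩
    · right
      have h1 := hN n h'
      have hy : (y : ℝ) = -(b n / a n) := by
        field_simp
        linarith
      have h2 : |(y : ℝ)| < |ρ| + 1 := by
        rw [hy]
        have h3 : |-(b n / a n) / θ ^ n| = |-(b n / a n)| / θ ^ n := by
          rw [abs_div, abs_of_pos (pow_pos hθ n)]
        rw [h3, div_lt_iff₀ (pow_pos hθ n)] at h1
        calc |-(b n / a n)| < (|ρ| + 1) * θ ^ n := h1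
          _ ≤ (|ρ| + 1) * 1 := by
              apply mul_le_mul_of_nonneg_left (pow_le_one₀ hθ.le hcase) (by positivity)
          _ = |ρ| + 1 := mul_one _
      rw [abs_lt] at h2
      constructor
      · have : (-(⌈|ρ| + 1⌉ : ℤ) : ℝ) ≤ y := by
          have := Int.le_ceil (|ρ| + 1)
          linarith [h2.1]
        exact_mod_cast this
      · have : (y : ℝ) ≤ (⌈|ρ| + 1⌉ : ℤ) := by
          have := Int.le_ceil (|ρ| + 1)
          linarith [h2.2]
        exact_mod_cast this
  · push Not at hcase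
    obtain ⟨N, hN⟩ := (habs.eventually (lt_mem_nhds (show |ρ| / 2 < |ρ| by linarith))).exists_forall_of_atTop
    have hgrow : Thin {y : ℤ | ∃ n : ℕ, N ≤ n ∧ a n ≠ 0 ∧ a n * y + b n = 0} := by
      apply Thin.of_growth (fun m => -(b (N + m) / a (N + m))) (|ρ| / 2) θ (by positivity) hcase
      · intro m
        have h1 := hN (N + m) (by omega)
        have h3 : |-(b (N + m) / a (N + m)) / θ ^ (N + m)| =
            |-(b (N + m) / a (N + m))| / θ ^ (N + m) := by
          rw [abs_div, abs_of_pos (pow_pos hθ _)]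
        rw [h3, lt_div_iff₀ (pow_pos hθ _)] at h1
        calc |ρ| / 2 * θ ^ m ≤ |ρ| / 2 * θ ^ (N + m) := by
              apply mul_le_mul_of_nonneg_left _ (by positivity)
              exact pow_le_pow_right₀ hcase.le (by omega)
          _ ≤ _ := h1.le
      · rintro y ⟨n, hn, hn0, h⟩
        refine ⟨n - N, ?_⟩
        have e : N + (n - N) = n := by omega
        rw [e]
        field_simp
        linarith
    refine ((hsplit N).union hgrow).mono ?_
    rintro y ⟨n, hn, h⟩
    rcases lt_or_ge n N with h' | h'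
    · exact Or.inl ⟨n, h', hn, h⟩
    · exact Or.inr ⟨n, h', hn, h⟩

/-- The space of sums of exponentials with positive bases (on `ℤ`). -/
noncomputable def ExpSum : Submodule ℝ (ℤ → ℝ) :=
  Submodule.span ℝ (Set.range (fun (β : {β : ℝ // 0 < β}) (n : ℤ) => (β : ℝ) ^ n))

theorem pow_mem_ExpSum {β : ℝ} (hβ : 0 < β) : (fun n : ℤ => β ^ n) ∈ ExpSum :=
  Submodule.subset_span ⟨⟨β, hβ⟩, rfl⟩

/-- The shift preserves sums of exponentials. -/
theorem shift_mem_ExpSum {s : ℤ → ℝ} (h : s ∈ ExpSum) : (fun n => s (n - 1)) ∈ ExpSum := by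
  induction h using Submodule.span_induction with
  | mem x hx =>
    obtain ⟨β, rfl⟩ := hx
    have : (fun n : ℤ => (β : ℝ) ^ (n - 1)) = ((β : ℝ)⁻¹) • (fun n : ℤ => (β : ℝ) ^ n) := by
      ext n
      simp only [Pi.smul_apply, smul_eq_mul]
      rw [zpow_sub_one₀ β.2.ne']
      ring
    simp only
    rw [this]
    exact ExpSum.smul_mem _ (pow_mem_ExpSum β.2)
  | zero => exact ExpSum.zero_mem
  | add x y _ _ hx hy => exact ExpSum.add_mem hx hy
  | smul c x _ hx => exact ExpSum.smul_mem c hx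

theorem neg_mem_ExpSum {s : ℤ → ℝ} (h : s ∈ ExpSum) : (fun n => s (-n)) ∈ ExpSum := by
  induction h using Submodule.span_induction with
  | mem x hx =>
    obtain ⟨β, rfl⟩ := hx
    have : (fun n : ℤ => (β : ℝ) ^ (-n)) = (fun n : ℤ => ((β : ℝ)⁻¹) ^ n) := by
      ext n
      rw [inv_zpow', zpow_neg]
    simp only
    rw [this]
    exact pow_mem_ExpSum (inv_pos.mpr β.2)
  | zero => exact ExpSum.zero_mem
  | add x y _ _ hx hy => exact ExpSum.add_mem hx hy
  | smul c x _ hx => exact ExpSum.smul_mem c hx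

theorem ExpSum_asym {s : ℤ → ℝ} (h : s ∈ ExpSum) :
    (∀ n : ℕ, s n = 0) ∨ Asym (fun n : ℕ => s n) := by
  classical
  rw [ExpSum, Finsupp.mem_span_range_iff_exists_finsupp] at h
  obtain ⟨c, hc⟩ := h
  by_cases hc0 : c = 0
  · left
    intro n
    rw [← hc, hc0]
    simp
  · right
    have hne : c.support.Nonempty := Finsupp.support_nonempty_iff.mpr hc0
    let b := c.support.max' hne
    have hb : b ∈ c.support := Finset.max'_mem _ _
    refine ⟨c b, b.1, Finsupp.mem_support_iff.mp hb, b.2, ?_⟩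
    have hform : ∀ n : ℕ, s n / b.1 ^ n = ∑ γ ∈ c.support, c γ * (γ.1 / b.1) ^ n := by
      intro n
      rw [← hc, Finsupp.sum, Finset.sum_apply, Finset.sum_div]
      refine Finset.sum_congr rfl (fun γ _ => ?_)
      simp only [Pi.smul_apply, smul_eq_mul, zpow_natCast, div_pow]
      ring
    rw [show (fun n : ℕ => s n / b.1 ^ n) = fun n : ℕ => ∑ γ ∈ c.support, c γ * (γ.1 / b.1) ^ n from
      funext hform]
    have hlim : Filter.Tendsto (fun n : ℕ => ∑ γ ∈ c.support, c γ * (γ.1 / b.1) ^ n) Filter.atTop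
        (nhds (∑ γ ∈ c.support, if γ = b then c b else 0)) := by
      apply tendsto_finsetSum
      intro γ hγ
      by_cases hγb : γ = b
      · simp only [hγb, if_true]
        have : (fun n : ℕ => c b * (b.1 / b.1) ^ n) = fun _ => c b := by
          ext n
          rw [div_self b.2.ne', one_pow, mul_one]
        rw [this]
        exact tendsto_const_nhds
      · simp only [hγb, if_false]
        have hlt : γ.1 < b.1 := by
          have h1 : γ ≤ b := Finset.le_max' _ _ hγ
          exact lt_of_le_of_ne h1 (fun h => hγb (Subtype.ext h))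
        have h2 : Filter.Tendsto (fun n : ℕ => (γ.1 / b.1) ^ n) Filter.atTop (nhds 0) := by
          apply tendsto_pow_atTop_nhds_zero_of_lt_one (div_nonneg γ.2.le b.2.le)
          rw [div_lt_one b.2]
          exact hlt
        simpa using h2.const_mul (c γ)
    rw [Finset.sum_ite_eq' c.support b (fun _ => c b), if_pos hb] at hlim
    exact hlim

theorem thin_ExpSum {a b : ℤ → ℝ} (ha : a ∈ ExpSum) (hb : b ∈ ExpSum) :
    Thin {y : ℤ | ∃ n : ℤ, a n ≠ 0 ∧ a n * y + b n = 0} := by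
  have h1 := thin_half (fun n : ℕ => a n) (fun n : ℕ => b n) (ExpSum_asym ha) (ExpSum_asym hb)
  have h2 := thin_half (fun n : ℕ => a (-n)) (fun n : ℕ => b (-n))
    (ExpSum_asym (neg_mem_ExpSum ha)) (ExpSum_asym (neg_mem_ExpSum hb))
  refine (h1.union h2).mono ?_
  rintro y ⟨n, hn, h⟩
  rcases le_total 0 n with h0 | h0
  · left
    refine ⟨n.toNat, ?_⟩
    simp only [Int.toNat_of_nonneg h0]
    exact ⟨hn, h⟩
  · right
    refine ⟨(-n).toNat, ?_⟩
    simp only [Int.toNat_of_nonneg (neg_nonneg.mpr h0), neg_neg]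
    exact ⟨hn, h⟩

/-- The solutions of the recursion `s (n+1) = τ s n - s (n-1)`, `s 0 = 0`, with `τ > 2`. -/
theorem rec_mem_ExpSum (τ : ℝ) (hτ : 2 < τ) (s : ℤ → ℝ) (h0 : s 0 = 0)
    (hrec : ∀ n, s (n + 1) = τ * s n - s (n - 1)) : s ∈ ExpSum := by
  let δ := Real.sqrt (τ ^ 2 - 4)
  have hδ2 : δ ^ 2 = τ ^ 2 - 4 := Real.sq_sqrt (by nlinarith)
  have hδ : 0 < δ := Real.sqrt_pos.mpr (by nlinarith)
  let l := (τ + δ) / 2
  have hl : 0 < l := by simp only [l]; linarith
  have hll : l ^ 2 = τ * l - 1 := by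
    simp only [l]; nlinarith [hδ2]
  have hlinv : l⁻¹ = τ - l := by
    symm
    apply eq_inv_of_mul_eq_one_left
    nlinarith
  have hne : l - l⁻¹ ≠ 0 := by
    rw [hlinv]
    have : l - (τ - l) = δ := by simp only [l]; ring
    rw [this]; exact hδ.ne'
  let c := s 1 / (l - l⁻¹)
  have key : ∀ n : ℕ, (s n = c * (l ^ (n : ℤ) - l⁻¹ ^ (n : ℤ)) ∧
      s (n + 1) = c * (l ^ ((n : ℤ) + 1) - l⁻¹ ^ ((n : ℤ) + 1))) ∧
      (s (-n) = c * (l ^ (-(n : ℤ)) - l⁻¹ ^ (-(n : ℤ))) ∧
      s (-n - 1) = c * (l ^ (-(n : ℤ) - 1) - l⁻¹ ^ (-(n : ℤ) - 1))) := by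
    have hl0 : l ≠ 0 := hl.ne'
    have hli0 : l⁻¹ ≠ 0 := inv_ne_zero hl0
    have hinv2 : l⁻¹ ^ 2 = τ * l⁻¹ - 1 := by
      have : l⁻¹ * l = 1 := inv_mul_cancel₀ hl0
      nlinarith [hlinv]
    -- zpow recursion
    have hz1 : ∀ m : ℤ, l ^ (m + 1) = τ * l ^ m - l ^ (m - 1) := by
      intro m
      have e1 : l ^ (m + 1) = l ^ (m - 1) * l ^ 2 := by
        rw [← zpow_natCast, ← zpow_add₀ hl0]; congr 1; push_cast; ring
      have e2 : l ^ m = l ^ (m - 1) * l := by
        rw [← zpow_add_one₀ hl0]; congr 1; ring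
      rw [e1, e2, hll]; ring
    have hz2 : ∀ m : ℤ, l⁻¹ ^ (m + 1) = τ * l⁻¹ ^ m - l⁻¹ ^ (m - 1) := by
      intro m
      have e1 : l⁻¹ ^ (m + 1) = l⁻¹ ^ (m - 1) * l⁻¹ ^ 2 := by
        rw [← zpow_natCast, ← zpow_add₀ hli0]; congr 1; push_cast; ring
      have e2 : l⁻¹ ^ m = l⁻¹ ^ (m - 1) * l⁻¹ := by
        rw [← zpow_add_one₀ hli0]; congr 1; ring
      rw [e1, e2, hinv2]; ring
    intro n
    induction n with
    | zero =>
      have hs1 : s 1 = c * (l - l⁻¹) := by
        simp only [c]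
        rw [div_mul_cancel₀ _ hne]
      refine ⟨⟨by simp [h0], by simpa using hs1⟩, ⟨by simp [h0], ?_⟩⟩
      have hm1 : s (-1) = - s 1 := by
        have := hrec 0
        rw [h0] at this
        simp only [zero_add, zero_sub, mul_zero] at this
        linarith
      simp only [Nat.cast_zero, neg_zero, zero_sub]
      rw [hm1, hs1, zpow_neg_one, zpow_neg_one, inv_inv]
      ring
    | succ n ih =>
      obtain ⟨⟨h1, h2⟩, ⟨h3, h4⟩⟩ := ih
      refine ⟨⟨by push_cast; exact h2, ?_⟩, ⟨by push_cast; rw [neg_add']; exact h4, ?_⟩⟩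
      · push_cast
        rw [hrec (n + 1), h2, add_sub_cancel_right, h1, hz1 ((n : ℤ) + 1), hz2 ((n : ℤ) + 1),
          add_sub_cancel_right]
        ring
      · push_cast
        have e := hrec (-(n : ℤ) - 1)
        rw [show -(n : ℤ) - 1 + 1 = -(n : ℤ) by ring] at e
        have e1 := hz1 (-(n : ℤ) - 1)
        have e2 := hz2 (-(n : ℤ) - 1)
        rw [show -(n : ℤ) - 1 + 1 = -(n : ℤ) by ring] at e1 e2
        rw [show (-((n : ℤ) + 1) - 1) = -(n : ℤ) - 1 - 1 by ring]
        have : s (-(n : ℤ) - 1 - 1) = τ * s (-(n : ℤ) - 1) - s (-(n : ℤ)) := by linarith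
        rw [this, h3, h4]
        have f1 : l ^ (-(n : ℤ) - 1 - 1) = τ * l ^ (-(n : ℤ) - 1) - l ^ (-(n : ℤ)) := by linarith
        have f2 : l⁻¹ ^ (-(n : ℤ) - 1 - 1) = τ * l⁻¹ ^ (-(n : ℤ) - 1) - l⁻¹ ^ (-(n : ℤ)) := by
          linarith
        rw [f1, f2]
        ring
  have hs : s = c • ((fun n : ℤ => l ^ n) - (fun n : ℤ => l⁻¹ ^ n)) := by
    ext n
    simp only [Pi.smul_apply, Pi.sub_apply, smul_eq_mul]
    rcases le_total 0 n with hn | hn
    · have := (key n.toNat).1.1
      rw [Int.toNat_of_nonneg hn] at this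
      exact this
    · have := (key (-n).toNat).2.1
      rw [Int.toNat_of_nonneg (neg_nonneg.mpr hn), neg_neg] at this
      exact this
  rw [hs]
  exact ExpSum.smul_mem _ (ExpSum.sub_mem (pow_mem_ExpSum hl) (pow_mem_ExpSum (inv_pos.mpr hl)))

end Q47HL
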