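import Pool.Agent.Q47.HL.Fam

/-!
# Harmonic labelings of `G × ℤ`: assembly
-/

namespace Q47HL

set_option linter.unusedSectionVars false

open Finset

section Setup

variable {V : Type*} [DecidableEq V] (G : SimpleGraph V) [G.LocallyFinite] (d : ℕ)

/-- The value at `(v, n)` as a functional of the values on the layers `1` (`inl`) and `0` (`inr`). -/
noncomputable def ell (p : V × ℤ) : (V ⊕ V) →₀ ℤ :=
  Finsupp.mapDomain Sum.inl (PZ G d p.2 (e p.1)) -
    Finsupp.mapDomain Sum.inr (PZ G d (p.2 - 1) (e p.1))

theorem ell_inl (p : V × ℤ) (u : V) : ell G d p (Sum.inl u) = PZ G d p.2 (e p.1) u := by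
  unfold ell
  rw [Finsupp.sub_apply, Finsupp.mapDomain_apply Sum.inl_injective, Finsupp.mapDomain_of_notMem_range,
    sub_zero]
  simp

theorem ell_inr (p : V × ℤ) (u : V) : ell G d p (Sum.inr u) = - PZ G d (p.2 - 1) (e p.1) u := by
  unfold ell
  rw [Finsupp.sub_apply, Finsupp.mapDomain_apply Sum.inr_injective, Finsupp.mapDomain_of_notMem_range,
    zero_sub]
  simp

theorem PZ_of_pos {n : ℤ} (h : 0 < n) : PZ G d n = P G d n.natAbs := by
  unfold PZ
  rw [Int.sign_eq_one_of_pos h, one_smul]

theorem PZ_of_neg {n : ℤ} (h : n < 0) : PZ G d n = - P G d n.natAbs := by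
  unfold PZ
  rw [Int.sign_eq_neg_one_of_neg h, neg_smul, one_smul]

theorem PZ_zero : PZ G d 0 = 0 := by simp [PZ]

theorem PZ_neg_one : PZ G d (-1) = -1 := by
  rw [PZ_of_neg G d (by norm_num)]
  rfl

theorem PZ_far (hconn : G.Connected) {n : ℤ} {v w : V} (h : n.natAbs ≤ G.dist v w) :
    PZ G d n (e v) w = 0 := by
  unfold PZ
  rw [LinearMap.smul_apply, Finsupp.smul_apply, P_far G d hconn v _ w h, smul_zero]

theorem ell_zero (v : V) : ell G d (v, 0) = Finsupp.single (Sum.inr v) 1 := by
  unfold ell
  simp only
  rw [PZ_zero, zero_sub, PZ_neg_one, LinearMap.neg_apply, Module.End.one_apply, e,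
    ← Finsupp.single_neg, Finsupp.mapDomain_single]
  simp [Finsupp.single_neg]

/-- Comparison of the levels. -/
def Ord (n n' : ℤ) : Prop := max n' (1 - n') < max n (1 - n) ∨ n = n' ∨ (1 ≤ n ∧ n' = 1 - n)

theorem ord_total (n n' : ℤ) : Ord n n' ∨ Ord n' n := by
  unfold Ord
  omega

variable [Infinite V] (hconn : G.Connected) (hdeg : ∀ v, G.degree v = d)
  (htr : ∀ u v, ∃ σ : G ≃g G, σ u = v)

include hconn hdeg htr

theorem abs_PZ_le (v w : V) (n : ℤ) : |PZ G d n (e w) v| ≤ P G d n.natAbs (e v) v := by
  have h := off_le G d hconn hdeg (diag_const G d htr) v w n.natAbs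
  rcases Int.lt_trichotomy n 0 with h0 | h0 | h0
  · rw [PZ_of_neg G d h0, LinearMap.neg_apply, Finsupp.neg_apply, abs_neg]
    exact h
  · subst h0
    rw [PZ_zero]
    simp [P_zero]
  · rw [PZ_of_pos G d h0]
    exact h

/-- The leading coefficient at the own vertex does not vanish. -/
theorem V1 {v v' : V} {n n' : ℤ} (hne : (v, n) ≠ (v', n')) (hord : Ord n n') (hn : n ≠ 0) :
    PZ G d n (e v) v - PZ G d n' (e v') v ≠ 0 := by
  have hle := abs_PZ_le G d hconn hdeg htr v v' n'
  have hlt := fun {m k : ℕ} (h : m < k) => diag_lt G d hconn hdeg v (m := m) (n := k) h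
  have hoff := fun (hv : v ≠ v') {k : ℕ} (hk : 1 ≤ k) =>
    off_lt G d hconn hdeg (diag_const G d htr) hv hk
  rw [abs_le] at hle
  rcases lt_or_gt_of_ne hn with h0 | h0
  · -- negative level
    rw [PZ_of_neg G d h0, LinearMap.neg_apply, Finsupp.neg_apply]
    rcases eq_or_ne n' n with h1 | h1
    · subst h1
      have hv : v ≠ v' := by rintro rfl; exact hne rfl
      have h2 := hoff hv (k := n'.natAbs) (by omega)
      rw [abs_lt] at h2
      rw [PZ_of_neg G d h0, LinearMap.neg_apply, Finsupp.neg_apply]
      omega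
    · rcases lt_or_ge n'.natAbs n.natAbs with h2 | h2
      · have := hlt h2
        omega
      · have h3 : n' = -n := by unfold Ord at hord; omega
        have h4 : 0 < n' := by omega
        rw [PZ_of_pos G d h4] at hle ⊢
        have h5 : n'.natAbs = n.natAbs := by omega
        rw [h5] at hle ⊢
        have h6 := hlt (show 0 < n.natAbs by omega)
        rw [P_zero] at h6
        simp only [LinearMap.zero_apply, Finsupp.coe_zero, Pi.zero_apply] at h6
        by_cases hv : v = v'
        · subst hv
          omega
        · have h7 := hoff hv (k := n.natAbs) (by omega)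
          rw [abs_lt] at h7
          omega
  · rw [PZ_of_pos G d h0]
    rcases lt_or_ge n'.natAbs n.natAbs with h2 | h2
    · have := hlt h2
      omega
    · have h3 : n' = n := by unfold Ord at hord; omega
      subst h3
      have hv : v ≠ v' := by rintro rfl; exact hne rfl
      have h4 := hoff hv (k := n'.natAbs) (by omega)
      rw [abs_lt] at h4
      rw [PZ_of_pos G d h0]
      omega

/-- The level bound. -/
theorem LB {v v' : V} {n n' : ℤ} (hord : Ord n n') (hnn : n ≠ n') (hn : n ≠ 0)
    (F1 : Finset V) (R : ℕ) (hR : ∀ u ∈ F1, ∀ w ∈ F1, G.dist u w ≤ R) (hv : v ∈ F1)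
    (h1 : ∀ u, PZ G d n (e v) u - PZ G d n' (e v') u ≠ 0 → u ∈ F1) : n.natAbs ≤ R + 1 := by
  obtain ⟨a, ha⟩ : ∃ a, n.natAbs = a + 1 := ⟨n.natAbs - 1, by omega⟩
  obtain ⟨x, y, hx, hy, hxy⟩ := exists_antipodal G hconn htr v a
  have key : ∀ z, G.dist v z = a → z ∉ F1 → G.dist v' z + 1 ≤ a := by
    intro z hz hzF
    have h2 : PZ G d n (e v) z = PZ G d n' (e v') z := by
      by_contra hcon
      exact hzF (h1 z (sub_ne_zero.mpr hcon))
    have h3 : P G d n.natAbs (e v) z ≠ 0 := by
      rw [ha]; exact P_sphere_ne G d hconn hz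
    have h4 : PZ G d n (e v) z ≠ 0 := by
      rcases lt_or_gt_of_ne hn with h0 | h0
      · rw [PZ_of_neg G d h0, LinearMap.neg_apply, Finsupp.neg_apply]
        exact neg_ne_zero.mpr h3
      · rw [PZ_of_pos G d h0]; exact h3
    have h5 : G.dist v' z < n'.natAbs := by
      by_contra hcon
      push Not at hcon
      rw [h2, PZ_far G d hconn hcon] at h4
      exact h4 rfl
    rcases lt_or_gt_of_ne hn with h0 | h0
    · rcases lt_or_ge n'.natAbs n.natAbs with h6 | h6
      · omega
      · have h7 : n' = -n := by unfold Ord at hord; omega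
        have h8 : 0 < n' := by omega
        rw [PZ_of_neg G d h0, PZ_of_pos G d h8, LinearMap.neg_apply, Finsupp.neg_apply] at h2
        have h9 : n'.natAbs = n.natAbs := by omega
        rw [h9, ha] at h2
        by_contra hcon
        have h10 : G.dist v' z = a := by omega
        have s1 := P_sphere G d hconn v a z hz
        have s2 := P_sphere G d hconn v' a z h10
        rw [← h2] at s2
        linarith
    · have : n'.natAbs < n.natAbs := by unfold Ord at hord; omega
      omega
  by_contra hcon
  push Not at hcon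
  have hxF : x ∉ F1 := fun h => by
    have := hR v hv x h
    omega
  have hyF : y ∉ F1 := fun h => by
    have := hR v hv y h
    omega
  have k1 := key x hx hxF
  have k2 := key y hy hyF
  have k3 := hconn.dist_triangle (u := x) (v := v') (w := y)
  have k4 : G.dist x v' = G.dist v' x := SimpleGraph.dist_comm
  omega

/-- The structure of the pairs whose difference is determined. -/
theorem struct {p q : V × ℤ} (hne : p ≠ q) (hord : Ord p.2 q.2)
    (F1 : Finset V) (R : ℕ) (hR : ∀ u ∈ F1, ∀ w ∈ F1, G.dist u w ≤ R)
    (h1 : ∀ u, PZ G d p.2 (e p.1) u - PZ G d q.2 (e q.1) u ≠ 0 → u ∈ F1) :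
    (p.2 = 0 ∧ q.2 = 0) ∨ (p.1 ∈ F1 ∧ ((p.2 = q.2 ∧ q.1 ∈ F1) ∨
      (p.2.natAbs ≤ R + 1 ∧ q.2.natAbs ≤ R + 2 ∧
        (q.2 = 0 ∨ q.1 ∈ F1 ∨ G.dist p.1 q.1 ≤ R + 1)))) := by
  obtain ⟨v, n⟩ := p
  obtain ⟨v', n'⟩ := q
  simp only at *
  rcases eq_or_ne n 0 with h0 | h0
  · left
    refine ⟨h0, ?_⟩
    unfold Ord at hord
    omega
  right
  have hv : v ∈ F1 := h1 v (V1 G d hconn hdeg htr hne hord h0)
  refine ⟨hv, ?_⟩
  rcases eq_or_ne n n' with h2 | h2
  · left
    subst h2
    refine ⟨rfl, ?_⟩
    apply h1
    have h3 := V1 G d hconn hdeg htr hne.symm (Or.inr (Or.inl rfl)) h0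
    intro h4
    apply h3
    rw [← neg_sub, h4, neg_zero]
  · right
    have h3 := LB G d hconn hdeg htr hord h2 h0 F1 R hR hv h1
    refine ⟨h3, ?_, ?_⟩
    · unfold Ord at hord
      omega
    · rcases eq_or_ne n' 0 with h4 | h4
      · left; exact h4
      right
      by_contra hcon
      push Not at hcon
      obtain ⟨h5, h6⟩ := hcon
      have h7 : PZ G d n (e v) v' = 0 := PZ_far G d hconn (by omega)
      have h8 : PZ G d n (e v) v' - PZ G d n' (e v') v' = 0 := by
        by_contra h9
        exact h5 (h1 v' h9)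
      rw [h7, zero_sub, neg_eq_zero] at h8
      have h9 := diag_lt G d hconn hdeg v' (m := 0) (n := n'.natAbs) (by omega)
      rw [P_zero] at h9
      simp only [LinearMap.zero_apply, Finsupp.coe_zero, Pi.zero_apply] at h9
      rcases lt_or_gt_of_ne h4 with h10 | h10
      · rw [PZ_of_neg G d h10, LinearMap.neg_apply, Finsupp.neg_apply, neg_eq_zero] at h8
        omega
      · rw [PZ_of_pos G d h10] at h8
        omega

theorem ell_injective : Function.Injective (ell G d) := by
  have key : ∀ p q : V × ℤ, p ≠ q → Ord p.2 q.2 → ell G d p ≠ ell G d q := by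
    intro p q hne hord heq
    obtain ⟨v, n⟩ := p
    obtain ⟨v', n'⟩ := q
    simp only at *
    rcases eq_or_ne n 0 with h0 | h0
    · have h1 : n' = 0 := by unfold Ord at hord; omega
      subst h0 h1
      rw [ell_zero, ell_zero] at heq
      have := DFunLike.congr_fun heq (Sum.inr v)
      rw [Finsupp.single_eq_same, Finsupp.single_apply] at this
      split_ifs at this with h2
      · exact hne (by rw [Sum.inr_injective h2])
      · exact absurd this one_ne_zero
    · apply V1 G d hconn hdeg htr hne hord h0
      have := DFunLike.congr_fun heq (Sum.inl v)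
      rw [ell_inl, ell_inl] at this
      exact sub_eq_zero.mpr this
  intro p q heq
  by_contra hne
  rcases ord_total p.2 q.2 with h | h
  · exact key p q hne h heq
  · exact key q p (Ne.symm hne) h heq.symm

omit [Infinite V] hconn hdeg htr in
theorem delta_inl (p q : V × ℤ) (u : V) : (ell G d p - ell G d q) (Sum.inl u) =
    PZ G d p.2 (e p.1) u - PZ G d q.2 (e q.1) u := by
  rw [Finsupp.sub_apply, ell_inl, ell_inl]

omit [Infinite V] hconn hdeg htr in
theorem delta_inr (p q : V × ℤ) (u : V) : (ell G d p - ell G d q) (Sum.inr u) =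
    -(PZ G d (p.2 - 1) (e p.1) u - PZ G d (q.2 - 1) (e q.1) u) := by
  rw [Finsupp.sub_apply, ell_inr, ell_inr]
  ring

omit [Infinite V] hdeg htr in
/-- Bounded finite sets of vertices. -/
theorem exists_bound (F1 : Finset V) : ∃ R : ℕ, ∀ u ∈ F1, ∀ w ∈ F1, G.dist u w ≤ R := by
  refine ⟨(F1 ×ˢ F1).sup (fun z => G.dist z.1 z.2), ?_⟩
  intro u hu w hw
  exact Finset.le_sup (f := fun z : V × V => G.dist z.1 z.2) (Finset.mk_mem_product hu hw)

omit [Infinite V] hdeg htr in
/-- A finite set containing the balls around a finite set. -/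
theorem exists_ball (F1 : Finset V) (r : ℕ) : ∃ Y : Finset V, ∀ u ∈ F1, ∀ w, G.dist u w ≤ r → w ∈ Y := by
  have h : (⋃ u ∈ (F1 : Set V), {w | G.dist u w ≤ r}).Finite :=
    F1.finite_toSet.biUnion (fun u _ => ball_finite G hconn u r)
  refine ⟨h.toFinset, ?_⟩
  intro u hu w hw
  rw [Set.Finite.mem_toFinset]
  simp only [Set.mem_iUnion, exists_prop]
  exact ⟨u, hu, hw⟩

end Setup

/-! ## Evaluations -/

section Eval

variable {I : Type*} [DecidableEq I]

theorem ev_update (x : I → ℤ) (i : I) (y : ℤ) (g : I →₀ ℤ) :
    ev (Function.update x i y) g = g i * y + ev (Function.update x i 0) g := by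
  have h1 : Function.update x i y = Function.update x i 0 + Pi.single i y := by
    ext j
    by_cases h : j = i
    · subst h; simp
    · simp [h]
  have h2 : ∀ a b : I → ℤ, ev (a + b) g = ev a g + ev b g := by
    intro a b
    simp only [ev, Finsupp.linearCombination_apply, Finsupp.sum, Pi.add_apply, smul_add,
      Finset.sum_add_distrib]
  have h3 : ev (Pi.single i y) g = g i * y := by
    simp only [ev, Finsupp.linearCombination_apply, Finsupp.sum, smul_eq_mul]
    rw [Finset.sum_eq_single i]
    · simp
    · intro j _ hj; simp [hj]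
    · intro hi
      rw [Finsupp.notMem_support_iff.mp hi, zero_mul]
  rw [h1, h2, h3, add_comm]

theorem ev_update_of_eq_zero (x : I → ℤ) (i : I) (y : ℤ) (g : I →₀ ℤ) (h : g i = 0) :
    ev (Function.update x i y) g = ev x g := by
  apply ev_congr
  intro j hj
  have : j ≠ i := by
    rintro rfl
    exact (Finsupp.mem_support_iff.mp hj) h
  simp [this]

theorem ev_neg (x : I → ℤ) (g : I →₀ ℤ) : ev x (-g) = - ev x g := by
  simp [ev]

theorem ev_single (x : I → ℤ) (i : I) : ev x (Finsupp.single i 1) = x i := by
  simp [ev]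

end Eval

section Steps

variable {V : Type*} [DecidableEq V] (G : SimpleGraph V) [G.LocallyFinite] (d : ℕ)
variable [Infinite V] (hconn : G.Connected) (hdeg : ∀ v, G.degree v = d)
  (htr : ∀ u v, ∃ σ : G ≃g G, σ u = v)

include hconn hdeg htr

omit htr in
/-- The excluded values coming from a family. -/
theorem thin_family (v v' : V) (F1 : Finset V) (x : V ⊕ V → ℤ) (i : V ⊕ V) :
    Thin {y : ℤ | ∃ n : ℤ, (PZ G d n (e v - e v')).support ⊆ F1 ∧
      (ell G d (v, n) - ell G d (v', n)) i ≠ 0 ∧
      (ell G d (v, n) - ell G d (v', n)) i * y + ev x (ell G d (v, n) - ell G d (v', n)) = 0} := by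
  classical
  by_cases hN : {n : ℤ | (PZ G d n (e v - e v')).support ⊆ F1}.Finite
  · -- finitely many levels
    have : {y : ℤ | ∃ n : ℤ, (PZ G d n (e v - e v')).support ⊆ F1 ∧
        (ell G d (v, n) - ell G d (v', n)) i ≠ 0 ∧
        (ell G d (v, n) - ell G d (v', n)) i * y + ev x (ell G d (v, n) - ell G d (v', n)) = 0} ⊆
        ⋃ n ∈ {n : ℤ | (PZ G d n (e v - e v')).support ⊆ F1},
          {y : ℤ | (ell G d (v, n) - ell G d (v', n)) i ≠ 0 ∧
        (ell G d (v, n) - ell G d (v', n)) i * y + ev x (ell G d (v, n) - ell G d (v', n)) = 0} := by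
      rintro y ⟨n, h1, h2⟩
      simp only [Set.mem_iUnion, exists_prop]
      exact ⟨n, h1, h2⟩
    refine Thin.mono (Thin.biUnion hN (fun n _ => ?_)) this
    apply Thin.of_finite
    apply Set.Subsingleton.finite
    rintro y ⟨h1, h2⟩ y' ⟨_, h2'⟩
    have h3 : (ell G d (v, n) - ell G d (v', n)) i * (y - y') = 0 := by linarith
    rcases mul_eq_zero.mp h3 with h | h
    · exact absurd h h1
    · exact sub_eq_zero.mp h
  · obtain ⟨K, hK⟩ := dichotomy G d (e v - e v') F1 hN
    have hexp := fun u => PZ_ExpSum G d hconn hdeg hK u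
    have hexp1 := fun u => shift_mem_ExpSum (hexp u)
    -- the coefficient
    have ha : (fun n : ℤ => (((ell G d (v, n) - ell G d (v', n)) i : ℤ) : ℝ)) ∈ ExpSum := by
      rcases i with u | u
      · have : (fun n : ℤ => (((ell G d (v, n) - ell G d (v', n)) (Sum.inl u) : ℤ) : ℝ)) =
            (fun n : ℤ => ((PZ G d n (e v - e v') u : ℤ) : ℝ)) := by
          ext n
          rw [delta_inl, map_sub, Finsupp.sub_apply]
        rw [this]
        exact hexp u
      · have : (fun n : ℤ => (((ell G d (v, n) - ell G d (v', n)) (Sum.inr u) : ℤ) : ℝ)) =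
            -(fun n : ℤ => ((PZ G d (n - 1) (e v - e v') u : ℤ) : ℝ)) := by
          ext n
          rw [delta_inr, Pi.neg_apply, map_sub, Finsupp.sub_apply]
          push_cast
          ring
        rw [this]
        exact ExpSum.neg_mem (hexp1 u)
    have hb : (fun n : ℤ => ((ev x (ell G d (v, n) - ell G d (v', n)) : ℤ) : ℝ)) ∈ ExpSum := by
      have : (fun n : ℤ => ((ev x (ell G d (v, n) - ell G d (v', n)) : ℤ) : ℝ)) =
          ∑ u ∈ K, ((x (Sum.inl u) : ℤ) : ℝ) • (fun n : ℤ => ((PZ G d n (e v - e v') u : ℤ) : ℝ)) -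
          ∑ u ∈ K, ((x (Sum.inr u) : ℤ) : ℝ) •
            (fun n : ℤ => ((PZ G d (n - 1) (e v - e v') u : ℤ) : ℝ)) := by
        ext n
        have h1 : ell G d (v, n) - ell G d (v', n) =
            Finsupp.mapDomain Sum.inl (PZ G d n (e v - e v')) -
            Finsupp.mapDomain Sum.inr (PZ G d (n - 1) (e v - e v')) := by
          ext j
          rcases j with u | u
          · rw [delta_inl, Finsupp.sub_apply, Finsupp.mapDomain_apply Sum.inl_injective,
              Finsupp.mapDomain_of_notMem_range _ _ (by simp), sub_zero, map_sub, Finsupp.sub_apply]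
          · rw [delta_inr, Finsupp.sub_apply, Finsupp.mapDomain_apply Sum.inr_injective,
              Finsupp.mapDomain_of_notMem_range _ _ (by simp), zero_sub, map_sub, Finsupp.sub_apply]
        have h2 : ∀ g : V →₀ ℤ, g.support ⊆ K → ev x (Finsupp.mapDomain Sum.inl g) =
            ∑ u ∈ K, x (Sum.inl u) * g u := by
          intro g hg
          rw [ev, Finsupp.linearCombination_mapDomain, Finsupp.linearCombination_apply, Finsupp.sum]
          rw [Finset.sum_subset hg]
          · apply Finset.sum_congr rfl; intro u _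
            simp [mul_comm]
          · intro u _ hu
            rw [Finsupp.notMem_support_iff.mp hu, zero_smul]
        have h3 : ∀ g : V →₀ ℤ, g.support ⊆ K → ev x (Finsupp.mapDomain Sum.inr g) =
            ∑ u ∈ K, x (Sum.inr u) * g u := by
          intro g hg
          rw [ev, Finsupp.linearCombination_mapDomain, Finsupp.linearCombination_apply, Finsupp.sum]
          rw [Finset.sum_subset hg]
          · apply Finset.sum_congr rfl; intro u _
            simp [mul_comm]
          · intro u _ hu
            rw [Finsupp.notMem_support_iff.mp hu, zero_smul]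
        rw [h1, ev_sub, h2 _ (PZ_supp G d hK n), h3 _ (PZ_supp G d hK (n - 1))]
        simp only [Pi.sub_apply, Finset.sum_apply, Pi.smul_apply, smul_eq_mul]
        push_cast
        rfl
      rw [this]
      exact ExpSum.sub_mem (Submodule.sum_mem _ (fun u _ => ExpSum.smul_mem _ (hexp u)))
        (Submodule.sum_mem _ (fun u _ => ExpSum.smul_mem _ (hexp1 u)))
    refine (thin_ExpSum ha hb).mono ?_
    rintro y ⟨n, _, h2, h3⟩
    refine ⟨n, by exact_mod_cast h2, by exact_mod_cast h3⟩

omit hconn hdeg htr [Infinite V] in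
theorem supp_of_family {v v' : V} {n : ℤ} {F1 : Finset V}
    (h1 : ∀ u, PZ G d n (e v) u - PZ G d n (e v') u ≠ 0 → u ∈ F1) :
    (PZ G d n (e v - e v')).support ⊆ F1 := by
  intro u hu
  apply h1
  rw [Finsupp.mem_support_iff, map_sub, Finsupp.sub_apply] at hu
  exact hu

/-- The injectivity step. -/
theorem stepB (s : State (ell G d)) (i : V ⊕ V) : ∃ t : State (ell G d), s ≤ t ∧ i ∈ t.F := by
  classical
  by_cases hi : i ∈ s.F
  · exact ⟨s, le_refl s, hi⟩
  let F' := insert i s.F
  let F1 := F'.toLeft
  let F0 := F'.toRight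
  obtain ⟨R, hR⟩ := exists_bound G hconn F1
  obtain ⟨Y, hY⟩ := exists_ball G hconn F1 (R + 2)
  let x0 := Function.update s.x i 0
  let Z : (V × ℤ) × (V × ℤ) → Set ℤ := fun pq => {y : ℤ | (ell G d pq.1 - ell G d pq.2) i ≠ 0 ∧
    (ell G d pq.1 - ell G d pq.2) i * y + ev x0 (ell G d pq.1 - ell G d pq.2) = 0}
  have hZ : ∀ pq, Thin (Z pq) := by
    intro pq
    apply Thin.of_finite
    apply Set.Subsingleton.finite
    rintro y ⟨h1, h2⟩ y' ⟨_, h2'⟩
    have h3 : (ell G d pq.1 - ell G d pq.2) i * (y - y') = 0 := by linarith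
    rcases mul_eq_zero.mp h3 with h | h
    · exact absurd h h1
    · exact sub_eq_zero.mp h
  let Vs : Finset V := F1 ∪ F0 ∪ Y
  let Ns : Finset ℤ := Finset.Icc (-(R + 2 : ℤ)) (R + 2)
  let Φ : Finset ((V × ℤ) × (V × ℤ)) := (Vs ×ˢ Ns) ×ˢ (Vs ×ˢ Ns)
  let Bad : Set ℤ := (⋃ pq ∈ (Φ : Set _), Z pq) ∪ ⋃ vv ∈ ((F1 ×ˢ F1 : Finset (V × V)) : Set (V × V)),
    {y : ℤ | ∃ n : ℤ, (PZ G d n (e vv.1 - e vv.2)).support ⊆ F1 ∧
      (ell G d (vv.1, n) - ell G d (vv.2, n)) i ≠ 0 ∧
      (ell G d (vv.1, n) - ell G d (vv.2, n)) i * y +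
        ev x0 (ell G d (vv.1, n) - ell G d (vv.2, n)) = 0}
  have hBad : Thin Bad := by
    apply Thin.union
    · exact Thin.biUnion Φ.finite_toSet (fun pq _ => hZ pq)
    · exact Thin.biUnion (Finset.finite_toSet _) (fun vv _ =>
        thin_family G d hconn hdeg vv.1 vv.2 F1 x0 i)
  obtain ⟨y, hy⟩ := hBad.exists_notMem
  have key : ∀ p q : V × ℤ, p ≠ q → Ord p.2 q.2 → (ell G d p - ell G d q).support ⊆ F' →
      ev (Function.update s.x i y) (ell G d p - ell G d q) ≠ 0 := by
    intro p q hne hord hsupp hev
    by_cases hc : (ell G d p - ell G d q) i = 0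
    · rw [ev_update_of_eq_zero _ _ _ _ hc] at hev
      apply s.good p q hne _ hev
      intro j hj
      have h1 := hsupp hj
      rcases Finset.mem_insert.mp h1 with h2 | h2
      · subst h2
        exact absurd hc (Finsupp.mem_support_iff.mp hj)
      · exact h2
    · rw [ev_update] at hev
      apply hy
      have h1 : ∀ u, PZ G d p.2 (e p.1) u - PZ G d q.2 (e q.1) u ≠ 0 → u ∈ F1 := by
        intro u hu
        rw [Finset.mem_toLeft]
        apply hsupp
        rw [Finsupp.mem_support_iff, delta_inl]
        exact hu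
      have h0 : ∀ u, -(PZ G d (p.2 - 1) (e p.1) u - PZ G d (q.2 - 1) (e q.1) u) ≠ 0 → u ∈ F0 := by
        intro u hu
        rw [Finset.mem_toRight]
        apply hsupp
        rw [Finsupp.mem_support_iff, delta_inr]
        exact hu
      have hst := struct G d hconn hdeg htr hne hord F1 R hR h1
      -- the vertex of `q` when it is on level zero
      have hq0 : q.2 = 0 → p.2.natAbs ≤ R + 1 → p.1 ∈ F1 → q.1 ∈ F0 ∪ Y := by
        intro hq hp hpF
        rw [Finset.mem_union]
        by_contra hcon
        push Not at hcon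
        obtain ⟨hc1, hc2⟩ := hcon
        have hd : R + 2 < G.dist p.1 q.1 := by
          by_contra hcon
          push Not at hcon
          exact hc2 (hY p.1 hpF q.1 hcon)
        apply hc1
        apply h0
        have e1 : PZ G d (p.2 - 1) (e p.1) q.1 = 0 := PZ_far G d hconn (by omega)
        have e2 : PZ G d (q.2 - 1) (e q.1) q.1 = -1 := by
          rw [hq]
          have : (0 : ℤ) - 1 = -1 := by norm_num
          rw [this, PZ_neg_one]
          simp [e]
        rw [e1, e2]
        norm_num
      rcases hst with ⟨hp0, hq0'⟩ | ⟨hpF, ⟨hnn, hqF⟩ | ⟨hpn, hqn, hrest⟩⟩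
      · -- both on level zero
        left
        obtain ⟨v, n⟩ := p
        obtain ⟨v', n'⟩ := q
        simp only at hp0 hq0'
        subst hp0 hq0'
        have hvv : v ≠ v' := by rintro rfl; exact hne rfl
        have m1 : v ∈ F0 := by
          rw [Finset.mem_toRight]
          apply hsupp
          rw [Finsupp.mem_support_iff, ell_zero, ell_zero, Finsupp.sub_apply,
            Finsupp.single_eq_same, Finsupp.single_apply]
          rw [if_neg (fun h => hvv (Sum.inr_injective h).symm)]
          norm_num
        have m2 : v' ∈ F0 := by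
          rw [Finset.mem_toRight]
          apply hsupp
          rw [Finsupp.mem_support_iff, ell_zero, ell_zero, Finsupp.sub_apply,
            Finsupp.single_eq_same, Finsupp.single_apply]
          rw [if_neg (fun h => hvv (Sum.inr_injective h))]
          norm_num
        simp only [Set.mem_iUnion, exists_prop]
        refine ⟨((v, 0), (v', 0)), ?_, hc, hev⟩
        simp only [Φ, Vs, Ns, Finset.coe_product, Set.mem_prod, Finset.mem_coe, Finset.mem_union,
          Finset.mem_Icc]
        refine ⟨⟨Or.inl (Or.inr m1), by omega, by omega⟩, ⟨Or.inl (Or.inr m2), by omega, by omega⟩⟩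
      · -- a family
        right
        obtain ⟨v, n⟩ := p
        obtain ⟨v', n'⟩ := q
        simp only at hnn
        subst hnn
        simp only [Set.mem_iUnion, exists_prop]
        refine ⟨(v, v'), ?_, n, supp_of_family G d h1, hc, hev⟩
        rw [Finset.mem_coe, Finset.mem_product]
        exact ⟨hpF, hqF⟩
      · left
        simp only [Set.mem_iUnion, exists_prop]
        refine ⟨(p, q), ?_, hc, hev⟩
        simp only [Φ, Vs, Ns, Finset.coe_product, Set.mem_prod, Finset.mem_coe, Finset.mem_union,
          Finset.mem_Icc]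
        refine ⟨⟨Or.inl (Or.inl hpF), by omega, by omega⟩, ⟨?_, by omega, by omega⟩⟩
        rcases hrest with h2 | h2 | h2
        · have := hq0 h2 hpn hpF
          rcases Finset.mem_union.mp this with h3 | h3
          · exact Or.inl (Or.inr h3)
          · exact Or.inr h3
        · exact Or.inl (Or.inl h2)
        · exact Or.inr (hY p.1 hpF q.1 (by omega))
  refine ⟨⟨F', Function.update s.x i y, ?_⟩, ⟨Finset.subset_insert _ _, ?_⟩,
    Finset.mem_insert_self _ _⟩
  · intro p q hne hsupp
    rcases ord_total p.2 q.2 with h | h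
    · exact key p q hne h hsupp
    · have h1 := key q p hne.symm h (by rw [← neg_sub, Finsupp.support_neg]; exact hsupp)
      rw [← neg_sub, ev_neg]
      exact neg_ne_zero.mpr h1
  · intro j hj
    have : j ≠ i := by rintro rfl; exact hi hj
    simp [this]

/-- A finite set controlling the lower layer of a family. -/
theorem exists_ctrl (v v' : V) (F1 : Finset V) : ∃ Z : Finset V, ∀ n : ℤ,
    (PZ G d n (e v - e v')).support ⊆ F1 → (PZ G d (n - 1) (e v - e v')).support ⊆ Z := by
  classical
  by_cases hN : {n : ℤ | (PZ G d n (e v - e v')).support ⊆ F1}.Finite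
  · refine ⟨hN.toFinset.biUnion (fun n => (PZ G d (n - 1) (e v - e v')).support), ?_⟩
    intro n hn
    exact Finset.subset_biUnion_of_mem (fun n => (PZ G d (n - 1) (e v - e v')).support)
      (by rw [Set.Finite.mem_toFinset]; exact hn)
  · obtain ⟨K, hK⟩ := dichotomy G d (e v - e v') F1 hN
    exact ⟨K, fun n _ => PZ_supp G d hK (n - 1)⟩

/-- The surjectivity step. -/
theorem stepA (s : State (ell G d)) (k : ℤ) : ∃ t : State (ell G d), s ≤ t ∧
    ∃ p, (ell G d p).support ⊆ t.F ∧ ev t.x (ell G d p) = k := by
  classical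
  by_cases hk : ∃ p, (ell G d p).support ⊆ s.F ∧ ev s.x (ell G d p) = k
  · exact ⟨s, le_refl s, hk⟩
  push Not at hk
  let F1 := s.F.toLeft
  let F0 := s.F.toRight
  obtain ⟨R, hR⟩ := exists_bound G hconn F1
  obtain ⟨Y, hY⟩ := exists_ball G hconn F1 (R + 2)
  choose Zf hZf using fun v v' => exists_ctrl G d hconn hdeg htr v v' F1
  let Vs : Finset V := F1 ∪ F0 ∪ Y
  let Ns : Finset ℤ := Finset.Icc (-(R + 3 : ℤ)) (R + 3)
  let Z1 : Finset V := (Vs ×ˢ Ns).biUnion (fun z => (PZ G d z.2 (e z.1)).support)
  let Z2 : Finset V := (F1 ×ˢ F1).biUnion (fun z => Zf z.1 z.2)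
  obtain ⟨w, hw⟩ := Infinite.exists_notMem_finset (Vs ∪ Z1 ∪ Z2)
  rw [Finset.mem_union, Finset.mem_union] at hw
  push Not at hw
  obtain ⟨⟨hwV, hwZ1⟩, hwZ2⟩ := hw
  have hwF0 : w ∉ F0 := fun h => hwV (by simp [Vs, h])
  have hwi : Sum.inr w ∉ s.F := fun h => hwF0 (by rw [Finset.mem_toRight]; exact h)
  have hz1 : ∀ v ∈ Vs, ∀ n : ℤ, -(R + 3 : ℤ) ≤ n → n ≤ R + 3 → PZ G d n (e v) w = 0 := by
    intro v hv n hn1 hn2
    by_contra hcon
    apply hwZ1
    rw [Finset.mem_biUnion]
    refine ⟨(v, n), ?_, by rw [Finsupp.mem_support_iff]; exact hcon⟩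
    rw [Finset.mem_product, Finset.mem_Icc]
    exact ⟨hv, hn1, hn2⟩
  have hz2 : ∀ v ∈ F1, ∀ v' ∈ F1, ∀ n : ℤ, (PZ G d n (e v - e v')).support ⊆ F1 →
      PZ G d (n - 1) (e v - e v') w = 0 := by
    intro v hv v' hv' n hn
    by_contra hcon
    apply hwZ2
    rw [Finset.mem_biUnion]
    exact ⟨(v, v'), Finset.mk_mem_product hv hv',
      hZf v v' n hn (by rw [Finsupp.mem_support_iff]; exact hcon)⟩
  let i : V ⊕ V := Sum.inr w
  let F' := insert i s.F
  have key : ∀ p q : V × ℤ, p ≠ q → Ord p.2 q.2 → (ell G d p - ell G d q).support ⊆ F' →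
      ev (Function.update s.x i k) (ell G d p - ell G d q) ≠ 0 := by
    intro p q hne hord hsupp
    by_cases hc : (ell G d p - ell G d q) i = 0
    · rw [ev_update_of_eq_zero _ _ _ _ hc]
      apply s.good p q hne
      intro j hj
      have h1 := hsupp hj
      rcases Finset.mem_insert.mp h1 with h2 | h2
      · subst h2
        exact absurd hc (Finsupp.mem_support_iff.mp hj)
      · exact h2
    have h1 : ∀ u, PZ G d p.2 (e p.1) u - PZ G d q.2 (e q.1) u ≠ 0 → u ∈ F1 := by
      intro u hu
      rw [Finset.mem_toLeft]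
      have : Sum.inl u ∈ F' := hsupp (by rw [Finsupp.mem_support_iff, delta_inl]; exact hu)
      rcases Finset.mem_insert.mp this with h2 | h2
      · simp [i] at h2
      · exact h2
    have h0 : ∀ u, u ≠ w → -(PZ G d (p.2 - 1) (e p.1) u - PZ G d (q.2 - 1) (e q.1) u) ≠ 0 →
        u ∈ F0 := by
      intro u huw hu
      rw [Finset.mem_toRight]
      have : Sum.inr u ∈ F' := hsupp (by rw [Finsupp.mem_support_iff, delta_inr]; exact hu)
      rcases Finset.mem_insert.mp this with h2 | h2
      · exact absurd (Sum.inr_injective h2) huw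
      · exact h2
    -- evaluation of `p` when determined
    have hst := struct G d hconn hdeg htr hne hord F1 R hR h1
    rcases hst with ⟨hp0, hq0'⟩ | ⟨hpF, ⟨hnn, hqF⟩ | ⟨hpn, hqn, hrest⟩⟩
    · -- both on level zero
      obtain ⟨v, n⟩ := p
      obtain ⟨v', n'⟩ := q
      simp only at hp0 hq0'
      subst hp0 hq0'
      have hvv : v ≠ v' := by rintro rfl; exact hne rfl
      have hother : ∀ u, Sum.inr u ∈ s.F → s.x (Sum.inr u) ≠ k := by
        intro u hu
        have h2 := hk (u, 0) (by
          rw [ell_zero]
          intro j hj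
          have := Finsupp.support_single_subset hj
          rw [Finset.mem_singleton] at this
          rw [this]; exact hu)
        rw [ell_zero, ev_single] at h2
        exact h2
      rw [ell_zero, ell_zero] at hc hsupp ⊢
      rw [ev_sub, ev_single, ev_single]
      rw [Finsupp.sub_apply, Finsupp.single_apply, Finsupp.single_apply] at hc
      by_cases hvw : v = w
      · subst hvw
        have m2 : Sum.inr v' ∈ s.F := by
          have : Sum.inr v' ∈ F' := hsupp (by
            rw [Finsupp.mem_support_iff, Finsupp.sub_apply, Finsupp.single_eq_same,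
              Finsupp.single_apply]
            rw [if_neg (fun h => hvv (Sum.inr_injective h))]
            norm_num)
          rcases Finset.mem_insert.mp this with h2 | h2
          · exact absurd (Sum.inr_injective h2).symm hvv
          · exact h2
        have e1 : Function.update s.x i k (Sum.inr v) = k := by simp [i]
        have e2 : Function.update s.x i k (Sum.inr v') = s.x (Sum.inr v') := by
          rw [Function.update_of_ne]
          exact fun h => hvv (Sum.inr_injective h).symm
        rw [e1, e2]
        exact sub_ne_zero.mpr (hother v' m2).symm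
      · have hvw' : v' = w := by
          by_contra hcon
          apply hc
          rw [if_neg (fun h => hvw (Sum.inr_injective h)), if_neg (fun h => hcon (Sum.inr_injective h))]
          norm_num
        subst hvw'
        have m1 : Sum.inr v ∈ s.F := by
          have : Sum.inr v ∈ F' := hsupp (by
            rw [Finsupp.mem_support_iff, Finsupp.sub_apply, Finsupp.single_eq_same,
              Finsupp.single_apply]
            rw [if_neg (fun h => hvv (Sum.inr_injective h).symm)]
            norm_num)
          rcases Finset.mem_insert.mp this with h2 | h2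
          · exact absurd (Sum.inr_injective h2) hvv
          · exact h2
        have e1 : Function.update s.x i k (Sum.inr v') = k := by simp [i]
        have e2 : Function.update s.x i k (Sum.inr v) = s.x (Sum.inr v) := by
          rw [Function.update_of_ne]
          exact fun h => hvv (Sum.inr_injective h)
        rw [e1, e2]
        exact sub_ne_zero.mpr (hother v m1)
    · -- a family: impossible
      exfalso
      apply hc
      obtain ⟨v, n⟩ := p
      obtain ⟨v', n'⟩ := q
      simp only at hnn
      subst hnn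
      simp only [i]
      rw [delta_inr]
      have := hz2 v hpF v' hqF n (supp_of_family G d h1)
      rw [map_sub, Finsupp.sub_apply] at this
      simp only
      rw [this, neg_zero]
    · have hpz : PZ G d (p.2 - 1) (e p.1) w = 0 := by
        apply hz1 p.1 (by simp [Vs, hpF])
        · omega
        · omega
      by_cases hq : q = (w, 0)
      · -- the new point itself
        subst hq
        rw [ell_zero, ev_sub, ev_single]
        have hpi : ell G d p i = 0 := by
          simp only [i]
          rw [ell_inr, hpz, neg_zero]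
        have hps : (ell G d p).support ⊆ s.F := by
          intro j hj
          have hji : j ≠ i := by
            rintro rfl
            exact (Finsupp.mem_support_iff.mp hj) hpi
          have : j ∈ F' := by
            apply hsupp
            rw [Finsupp.mem_support_iff, ell_zero, Finsupp.sub_apply, Finsupp.single_apply,
              if_neg (fun h => hji h.symm), sub_zero]
            exact Finsupp.mem_support_iff.mp hj
          rcases Finset.mem_insert.mp this with h2 | h2
          · exact absurd h2 hji
          · exact h2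
        rw [ev_update_of_eq_zero _ _ _ _ hpi]
        have e1 : Function.update s.x i k (Sum.inr w) = k := by simp [i]
        rw [e1]
        exact sub_ne_zero.mpr (hk p hps)
      · exfalso
        apply hc
        simp only [i]
        rw [delta_inr, hpz]
        have hqV : q.1 ∈ Vs := by
          rcases hrest with h2 | h2 | h2
          · have hqw : q.1 ≠ w := by
              intro h
              apply hq
              ext
              · exact h
              · exact h2
            by_contra hcon
            have hd : R + 2 < G.dist p.1 q.1 := by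
              by_contra hcon2
              push Not at hcon2
              exact hcon (by simp [Vs, hY p.1 hpF q.1 hcon2])
            apply hcon
            have : q.1 ∈ F0 := by
              apply h0 q.1 hqw
              have e1 : PZ G d (p.2 - 1) (e p.1) q.1 = 0 := PZ_far G d hconn (by omega)
              have e2 : PZ G d (q.2 - 1) (e q.1) q.1 = -1 := by
                rw [h2]
                have : (0 : ℤ) - 1 = -1 := by norm_num
                rw [this, PZ_neg_one]
                simp [e]
              rw [e1, e2]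
              norm_num
            simp [Vs, this]
          · simp [Vs, h2]
          · have := hY p.1 hpF q.1 (by omega)
            simp [Vs, this]
        rw [hz1 q.1 hqV (q.2 - 1) (by omega) (by omega)]
        norm_num
  refine ⟨⟨F', Function.update s.x i k, ?_⟩, ⟨Finset.subset_insert _ _, ?_⟩, (w, 0), ?_, ?_⟩
  · intro p q hne hsupp
    rcases ord_total p.2 q.2 with h | h
    · exact key p q hne h hsupp
    · have h1 := key q p hne.symm h (by rw [← neg_sub, Finsupp.support_neg]; exact hsupp)
      rw [← neg_sub, ev_neg]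
      exact neg_ne_zero.mpr h1
  · intro j hj
    have : j ≠ i := by rintro rfl; exact hwi hj
    simp [this]
  · rw [ell_zero]
    intro j hj
    have := Finsupp.support_single_subset hj
    rw [Finset.mem_singleton] at this
    rw [this]
    exact Finset.mem_insert_self _ _
  · rw [ell_zero, ev_single]
    simp [i]

/-- The existence of a bijective integral solution. -/
theorem exists_labeling [Countable V] : ∃ φ : V × ℤ → ℤ, Function.Bijective φ ∧
    ∀ v n, φ (v, n + 1) + φ (v, n - 1) + ∑ w ∈ G.neighborFinset v, φ (w, n) =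
      ((d : ℤ) + 2) * φ (v, n) := by
  obtain ⟨x, hx⟩ := exists_bijective (ell G d) (ell_injective G d hconn hdeg htr)
    (stepB G d hconn hdeg htr) (stepA G d hconn hdeg htr)
  refine ⟨fun p => ev x (ell G d p), hx, ?_⟩
  intro v n
  simp only
  have hT : ∀ m : ℤ, PZ G d (m + 1) (e v) + PZ G d (m - 1) (e v) +
      ∑ w ∈ G.neighborFinset v, PZ G d m (e w) = ((d : ℤ) + 2) • PZ G d m (e v) := by
    intro m
    have h1 : TL G d (e v) = ((d : ℤ) + 2) • e v - ∑ w ∈ G.neighborFinset v, e w := by
      simp only [TL, LinearMap.sub_apply, LinearMap.smul_apply, Module.End.one_apply, e,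
        adjL_single, one_smul]
    have h2 : PZ G d m (TL G d (e v)) = TL G d (PZ G d m (e v)) := by
      rw [← Module.End.mul_apply, PZ_comm, Module.End.mul_apply]
    rw [h1, map_sub, map_smul, map_sum] at h2
    rw [PZ_rec, LinearMap.sub_apply, Module.End.mul_apply, ← h2]
    abel
  have hell : ell G d (v, n + 1) + ell G d (v, n - 1) + ∑ w ∈ G.neighborFinset v, ell G d (w, n) =
      ((d : ℤ) + 2) • ell G d (v, n) := by
    ext j
    rcases j with u | u
    · rw [Finsupp.add_apply, Finsupp.add_apply, Finsupp.finsetSum_apply, Finsupp.smul_apply,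
        ell_inl, ell_inl, ell_inl]
      simp only [ell_inl]
      have := DFunLike.congr_fun (hT n) u
      rw [Finsupp.add_apply, Finsupp.add_apply, Finsupp.finsetSum_apply, Finsupp.smul_apply] at this
      exact this
    · rw [Finsupp.add_apply, Finsupp.add_apply, Finsupp.finsetSum_apply, Finsupp.smul_apply,
        ell_inr, ell_inr, ell_inr]
      simp only [ell_inr]
      have := DFunLike.congr_fun (hT (n - 1)) u
      rw [Finsupp.add_apply, Finsupp.add_apply, Finsupp.finsetSum_apply, Finsupp.smul_apply,
        sub_add_cancel] at this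
      rw [Finset.sum_neg_distrib, smul_neg, ← this, add_sub_cancel_right]
      ring
  have hev := congrArg (ev x) hell
  simp only [ev, map_add, map_sum, map_smul, smul_eq_mul] at hev ⊢
  exact hev

end Steps

end Q47HL
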